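import Mathlib
import Pool.Agent.Lib.MP_44a246_ntK.K02
import Pool.Agent.Lib.MP_44a246_ntSH.RV2
import Pool.Agent.Lib.MP_44a246_ntSH.RV9

/-!
Pairs with linear forms: the quotients of the space of the rows of the point.
-/

namespace Pool.Agent.Lib.MP_44a246_ntSQ

open Pool.Agent.Lib.MP_44a246_nt
open Pool.Agent.Lib.MP_44a246_ntL
open Pool.Agent.Lib.MP_44a246_ntS
open Pool.Agent.Lib.MP_44a246_ntF
open Pool.Agent.Lib.MP_44a246_ntO
open Pool.Agent.Lib.MP_44a246_ntA
open Pool.Agent.Lib.MP_44a246_ntSH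
open Pool.Agent.Lib.MP_e52354_nt
open WithZero Module

section

variable {κ L : Type*} [Field κ] [IsAlgClosed κ] [CharZero κ] [Field L] [Algebra κ L] {n : ℕ}
  {σ : Type*} [Fintype σ]

/-- **The height of the quotients of the space of the rows of the point**: a quotient of dimension
`m` has height at most `(m + 1) H` and a small error. -/
theorem ht_sup_U1_le (h : IsFF κ L) {x : Fin (n + 1) → L} (hx : x ≠ 0) {D : σ → Derivation ℤ L L}
    {A : σ → Matrix (Fin (n + 1)) (Fin (n + 1)) L} {δ : Place κ L → ℕ}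
    (hδ : (Function.support δ).Finite) (hD : ∀ s, PoleBound κ (D s) δ)
    (hA : ∀ (w : Place κ L) s i j, w.1 (A s i j) ≤ exp (δ w : ℤ)) (K : Submodule L (σ → L)) :
    ht κ (K ⊔ U1 x D A) ≤ ht κ K + height κ x + (height κ x + ∑ᶠ w, (δ w : ℤ)) *
      ((finrank L ↥(K ⊔ U1 x D A) : ℤ) - finrank L K) := by
  classical
  have hxj : ∀ w : Place κ L, ∃ l, x l ≠ 0 ∧ vmax w.1 x = w.1 (x l) ∧
      ∀ k, w.1 (x k) ≤ w.1 (x l) := fun w => exists_vmax w.1 hx
  choose j hj0 hjv hjm using hxj
  set q : Place κ L → Fin (n + 1) → L := fun w l => x l / x (j w) with hq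
  have hxq : ∀ w, x = x (j w) • q w := by
    intro w
    funext l
    rw [Pi.smul_apply, smul_eq_mul, hq]
    simp only
    rw [mul_div_cancel₀ _ (hj0 w)]
  have hq1 : ∀ (w : Place κ L) l, w.1 (q w l) ≤ 1 := by
    intro w l
    rw [hq]
    simp only
    rw [map_div₀]
    exact div_le_one_of_le₀ (hjm w l) zero_le
  set B : Submodule L (Fin (n + 1) → L) := orth (Submodule.span L {x}) with hB
  set Tw : Place κ L → Matrix (σ) (Fin (n + 1)) L := fun w =>
    Matrix.of fun I i => x (j w) * dv (D I) (A I) (q w) i with hTwd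
  set τ : Place κ L → ℤ := fun w => log (vmax w.1 x) + (δ w : ℤ) with hτd
  have hδ' : (Function.support fun w => (δ w : ℤ)).Finite := by
    refine hδ.subset fun w hw h => hw ?_
    simp only
    rw [h]
    rfl
  have hτ : (Function.support τ).Finite :=
    ((h.vmax_support hx).union hδ').subset (Function.support_add _ _)
  have hTw : ∀ (w : Place κ L) k m, w.1 (Tw w k m) ≤ exp (τ w) := by
    intro w I i
    have h1 : w.1 (dv (D I) (A I) (q w) i) ≤ exp (δ w : ℤ) := by
      unfold dv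
      refine (w.1.map_sub _ _).trans (max_le (hD I w _ (hq1 w i)) ?_)
      unfold Matrix.mulVec dotProduct
      refine w.1.map_sum_le fun l _ => ?_
      rw [map_mul]
      calc w.1 (A I i l) * w.1 (q w l) ≤ exp (δ w : ℤ) * 1 :=
            mul_le_mul' (hA w I i l) (hq1 w l)
        _ = _ := mul_one _
    have h2 : vmax w.1 x ≠ 0 := by
      rw [Ne, vmax_eq_zero_iff]
      exact hx
    rw [hτd, hTwd]
    simp only [Matrix.of_apply]
    rw [map_mul, exp_add, exp_log h2, hjv w]
    exact mul_le_mul' le_rfl h1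
  have hT : ∀ w, ∀ b ∈ B, (Tw w).mulVec b = (r1L x D A) b := by
    intro w b hb
    have hb' := mem_orth_single.1 hb
    funext I
    rw [r1L_apply]
    unfold Matrix.mulVec dotProduct
    have h1 : ∀ i, dv (D I) (A I) x i =
        x (j w) * dv (D I) (A I) (q w) i + D I (x (j w)) * q w i := by
      intro i
      have h2 : (A I).mulVec x i = x (j w) * (A I).mulVec (q w) i := by
        conv_lhs => rw [hxq w]
        rw [Matrix.mulVec_smul, Pi.smul_apply, smul_eq_mul]
      have h3 : D I (x i) = x (j w) * D I (q w i) + q w i * D I (x (j w)) := by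
        conv_lhs => rw [hxq w]
        rw [Pi.smul_apply, smul_eq_mul, Derivation.leibniz, smul_eq_mul, smul_eq_mul]
      unfold dv
      rw [h2, h3]
      ring
    have h4 : ∑ i, b i * q w i = 0 := by
      have h5 : x (j w) * ∑ i, b i * q w i = 0 := by
        rw [Finset.mul_sum, ← hb']
        refine Finset.sum_congr rfl fun i _ => ?_
        have h6 : x i = x (j w) * q w i := by
          conv_lhs => rw [hxq w]
          rfl
        rw [h6]
        ring
      exact (mul_eq_zero.1 h5).resolve_left (hj0 w)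
    calc ∑ i, Tw w I i * b i = ∑ i, b i * (x (j w) * dv (D I) (A I) (q w) i) := by
          refine Finset.sum_congr rfl fun i _ => ?_
          rw [hTwd]
          simp only [Matrix.of_apply]
          ring
      _ = ∑ i, b i * (x (j w) * dv (D I) (A I) (q w) i) +
            D I (x (j w)) * ∑ i, b i * q w i := by rw [h4, mul_zero, add_zero]
      _ = ∑ i, b i * dv (D I) (A I) x i := by
          rw [Finset.mul_sum, ← Finset.sum_add_distrib]
          refine Finset.sum_congr rfl fun i _ => ?_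
          rw [h1 i]
          ring
  obtain ⟨A₀, hA₀⟩ : ∃ A₀ : Submodule L (Fin (n + 1) → L),
      A₀ = B ⊓ K.comap (r1L x D A) := ⟨_, rfl⟩
  have hAB : A₀ ≤ B := by rw [hA₀]; exact inf_le_left
  have hmap : A₀.map (r1L x D A) ≤ K := by
    rintro u ⟨y, hy, rfl⟩
    rw [hA₀] at hy
    exact hy.2
  have hinj : ∀ b ∈ B, r1L x D A b ∈ K → b ∈ A₀ := fun b hb hb' => by
    rw [hA₀]
    exact ⟨hb, hb'⟩
  have key := ht_mapw h (r1L x D A) Tw hτ hTw (A := A₀) (B := B) (A' := K) hT hAB hmap hinj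
  have hfr := finrank_sup_map hAB (r1L x D A) hmap hinj
  have hsum : ∑ᶠ w, τ w = height κ x + ∑ᶠ w, (δ w : ℤ) := by
    rw [hτd, finsum_add_distrib (h.vmax_support hx) hδ']
    rfl
  have hA := ht_nonneg h A₀
  have hBB : K ⊔ B.map (r1L x D A) = K ⊔ U1 x D A := rfl
  rw [hBB] at hfr key
  have hle : finrank L A₀ ≤ finrank L B := Submodule.finrank_mono hAB
  have hle2 : finrank L K ≤ finrank L ↥(K ⊔ U1 x D A) := Submodule.finrank_mono le_sup_left
  have e1 : ((finrank L ↥(K ⊔ U1 x D A) : ℤ) - finrank L K) =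
      (finrank L B : ℤ) - finrank L A₀ := by omega
  rw [e1]
  rw [hsum, hB, ht_orth h, ht_single h hx, ← hB] at key
  linarith

/-- **The height of the quotients of the space of rows**, with additional rows. -/
theorem ht_rows_le (h : IsFF κ L) {x : Fin (n + 1) → L} (hx : x ≠ 0) {D : σ → Derivation ℤ L L}
    {A : σ → Matrix (Fin (n + 1)) (Fin (n + 1)) L} {δ : Place κ L → ℕ}
    (hδ : (Function.support δ).Finite) (hD : ∀ s, PoleBound κ (D s) δ)
    (hA : ∀ (w : Place κ L) s i j, w.1 (A s i j) ≤ exp (δ w : ℤ)) {c : ℕ} {ρ : Fin c → σ → L}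
    {τ : Place κ L → ℕ} (hτ : (Function.support τ).Finite)
    (hρ : ∀ (w : Place κ L) k, ∃ u ∈ U1 x D A, ∀ s, w.1 (ρ k s - u s) ≤ exp (τ w : ℤ))
    {K : Submodule L (σ → L)} (hK : K ≤ U1 x D A ⊔ Submodule.span L (Set.range ρ)) :
    ht κ (U1 x D A ⊔ Submodule.span L (Set.range ρ)) ≤ ht κ K + height κ x *
      ((finrank L ↥(U1 x D A ⊔ Submodule.span L (Set.range ρ)) : ℤ) - finrank L K + 1) +
      n * ∑ᶠ w, (δ w : ℤ) + c * ∑ᶠ w, (τ w : ℤ) := by
  have h1 := ht_sup_U1_le h hx hδ hD hA K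
  have h2 := ht_sup_rows_le h (U := K ⊔ U1 x D A) hτ (ρ := ρ) fun w k => by
    obtain ⟨u, hu, hu'⟩ := hρ w k
    exact ⟨u, Submodule.mem_sup_right hu, hu'⟩
  have e1 : K ⊔ U1 x D A ⊔ Submodule.span L (Set.range ρ) =
      U1 x D A ⊔ Submodule.span L (Set.range ρ) := by
    rw [sup_assoc]
    exact sup_eq_right.2 hK
  rw [e1] at h2
  have h3 : finrank L ↥(K ⊔ U1 x D A) ≤
      finrank L ↥(U1 x D A ⊔ Submodule.span L (Set.range ρ)) :=
    Submodule.finrank_mono (sup_le hK le_sup_left)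
  have h4 : finrank L ↥(K ⊔ U1 x D A) ≤ finrank L K + n :=
    (Submodule.finrank_add_le_finrank_add_finrank _ _).trans
      (Nat.add_le_add_left (finrank_U1_le hx D A) _)
  have h5 : finrank L K ≤ finrank L ↥(K ⊔ U1 x D A) := Submodule.finrank_mono le_sup_left
  obtain ⟨a, ha⟩ := Nat.exists_eq_add_of_le h5
  obtain ⟨b, hb⟩ := Nat.exists_eq_add_of_le h3
  have hh := h.height_nonneg hx
  have hΔ : 0 ≤ ∑ᶠ w, (δ w : ℤ) := finsum_nonneg fun w => Int.natCast_nonneg _
  rw [hb, ha]
  rw [ha] at h1 h4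
  have h6 : (a : ℤ) ≤ n := by
    have : a ≤ n := by omega
    exact_mod_cast this
  have h7 : (0 : ℤ) ≤ b := Int.natCast_nonneg _
  push_cast at h1 ⊢
  nlinarith [mul_nonneg hh h7, mul_le_mul_of_nonneg_right h6 hΔ]

end

end Pool.Agent.Lib.MP_44a246_ntSQ
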