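import Mathlib
import Pool.Agent.Lib.MP_44a246_ntSH.AH1
import Pool.Agent.Lib.MP_44a246_ntSH.AB1
import Pool.Agent.Lib.MP_44a246_ntSH.BA07
import Pool.Agent.Lib.MP_44a246_ntSH.B11

/-!
Pairs with linear forms: the hypotheses on the point for `p` blocks of degrees `d j ≥ 1`, and
(B2), (B3) of paper 619.

A block with `d j = 1` can contain a space of cost `H` and dimension `n` (the slopes of the point may be
`H / n`), so the rows `rows0` of the point know also that the quotient by the linear blocks is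
not too small: this is a property of the rows of the point (every quotient of the space of rows of
dimension `m` has height at most `(m + 1) H` and a small error).
-/

namespace Pool.Agent.Lib.MP_44a246_ntSQ

open Pool.Agent.Lib.MP_44a246_nt
open Pool.Agent.Lib.MP_44a246_ntL
open Pool.Agent.Lib.MP_44a246_ntS
open Pool.Agent.Lib.MP_44a246_ntF
open Pool.Agent.Lib.MP_44a246_ntO
open Pool.Agent.Lib.MP_44a246_ntX
open Pool.Agent.Lib.MP_44a246_ntSH
open Pool.Agent.Lib.MP_e52354_nt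
open WithZero Module

universe u

/-- The rows of the point. -/
def Rows0 (κ : Type*) {L : Type*} [Field κ] [Field L] [Algebra κ L] {n p : ℕ}
    (x : Fin (n + 1) → L) (d : Fin p → ℕ) (c : ℕ) (E : ℝ) : Prop :=
  ∃ U : (j : Fin p) → Submodule L (EX (n + 1) (d j) → L), (∀ j, xm (d j) x ∈ U j) ∧
    ∑ j, finrank L (U j) ≤ n + c ∧
    height κ x - E ≤ ∑ j, (d j * (height κ x : ℝ) - ht κ (U j)) ∧
    (∑ j with 2 ≤ d j, (ht κ (U j) : ℝ)) +
      (∑ j with ¬ 2 ≤ d j, (finrank L (U j) : ℝ)) * height κ x ≤ (n + c + 1) * height κ x + E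

/-- The hypotheses on the point for `p` blocks of degrees at least `1`. -/
structure HypQ (κ : Type*) {L : Type*} [Field κ] [Field L] [Algebra κ L] {n p : ℕ}
    (x : Fin (n + 1) → L) (d : Fin p → ℕ) (c : ℕ) (C₀ M E : ℝ) : Prop where
  ne : x ≠ 0
  slope : ∀ Q : Submodule L (Fin (n + 1) → L), x ∈ Q →
    (height κ x : ℝ) - ht κ Q ≤ M * ((finrank L Q : ℝ) - 1)
  pos : 0 ≤ M
  small : M * n ≤ C₀ * height κ x
  hd : n + 2 ≤ ∑ j, d j
  hd1 : ∀ j, 1 ≤ d j
  rows : RowsP κ x d c E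
  rows0 : Rows0 κ x d c E
  hE : 0 < E
  big : E * ((n : ℝ) + 2) ^ 20 ≤ height κ x

section

variable {κ L : Type*} [Field κ] [Field L] [Algebra κ L] {n p : ℕ} {x : Fin (n + 1) → L}
  {d : Fin p → ℕ} {c : ℕ} {C₀ C₁ M E E' : ℝ}

theorem HypQ.toL (hyp : HypQ κ x d c C₀ M E) : HypL κ x C₀ M E :=
  ⟨hyp.ne, hyp.slope, hyp.pos, hyp.small, hyp.hE, hyp.big⟩

end

section

variable {κ K : Type*} [Field κ] [Field K] [Algebra κ K]
  {n p : ℕ} {x : Fin (n + 1) → K} {d : Fin p → ℕ} {c : ℕ} {C₀ M E : ℝ}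

theorem HypQ.cb_big (hyp : HypQ κ x d c C₀ M E) {b : ℝ} (hb : b ≤ ((n : ℝ) + 2) ^ 20) :
    b * E ≤ height κ x := hyp.toL.le hb

theorem HypQ.cb_pos (hyp : HypQ κ x d c C₀ M E) : (0 : ℝ) < height κ x := hyp.toL.H_pos

theorem HypQ.cb_k (hyp : HypQ κ x d c C₀ M E) :
    (height κ x : ℝ) ≤ ((∑ j, (d j : ℝ)) - n - 1) * height κ x := by
  have hH := hyp.cb_pos
  have h5 : (1 : ℝ) ≤ (∑ j, (d j : ℝ)) - n - 1 := by
    have : ((n + 2 : ℕ) : ℝ) ≤ ∑ j, (d j : ℝ) := by
      have := hyp.hd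
      exact_mod_cast this
    push_cast at this
    linarith
  nlinarith

theorem HypQ.cb_p (hyp : HypQ κ x d c C₀ M E) : 1 ≤ p := by
  by_contra h0
  have h1 : p = 0 := by omega
  subst h1
  have := hyp.hd
  simp at this

end

section

variable {κ K : Type*} [Field κ] [IsAlgClosed κ] [CharZero κ] [Field K] [Algebra κ K]
  {n p : ℕ} {x : Fin (n + 1) → K} {d : Fin p → ℕ} {c : ℕ} {C₀ M E : ℝ}

/-- (3c) of paper 619 for `p` blocks and a space `Λ` with slopes at least `t`, `t' = t / 2` -/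
theorem cbq_rows (h : IsFF κ K) (hyp : HypQ κ x d c C₀ M E) (hn : 1 ≤ n) {s : ℝ} (hs : 0 < s)
    {Λ : Submodule K (EX (n + 1) 2 → K)} (hΛ : HasSl κ (s * height κ x / n) (xm 2 x) Λ) :
    ∃ (ν : ℕ) (W : (j : Fin p) → Submodule K (EX (n + 1) (d j) → K)), (∀ j, xm (d j) x ∈ W j) ∧
      ∑ j, (finrank K (W j) : ℝ) ≤ n + ν + c ∧
      height κ x + s / 2 * height κ x / n * ν - E ≤
        ∑ j, (d j * (height κ x : ℝ) - ht κ (W j)) ∧
      ∀ q ∈ Λ, (finrank K (lam 1 (K ∙ q)) : ℝ) * (n + 1) -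
        (finrank K (lam 1 (K ∙ q)) : ℝ) * ((finrank K (lam 1 (K ∙ q)) : ℝ) - 1) / 2 ≤
          ν + (1 + 4 / s * n) + n + c := by
  have hH0 := hyp.cb_pos
  have hn' : (0 : ℝ) < n := by exact_mod_cast hn
  obtain ⟨Λp, hΛp⟩ := exists_isSl h (s / 2 * height κ x / n) (xm 2 x)
  have hlt : s / 2 * height κ x / n < s * height κ x / n := by
    apply div_lt_div_of_pos_right _ hn'
    apply mul_lt_mul_of_pos_right _ hH0
    linarith
  have hle := hΛ.le_isSl h hlt hΛp
  have hb := hΛp.bound h (xm_ne_zero hyp.ne)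
  rw [height_xm' h 2 hyp.ne] at hb
  have hht : (0 : ℝ) ≤ ht κ Λp := by exact_mod_cast ht_nonneg h Λp
  obtain ⟨ν, W, h1, h2, h3, h4⟩ := hyp.rows Λ Λp (s * height κ x / n) (s / 2 * height κ x / n)
    (by positivity) hlt.le hΛ hle hΛp.le
  refine ⟨ν, W, h1, by exact_mod_cast h2, ?_, fun q hq => (h4 q hq).trans ?_⟩
  · have h6 := hyp.cb_k
    have h7 : s * height κ x / n - s / 2 * height κ x / n = s / 2 * height κ x / n := by ring
    rw [h7] at h3
    linarith only [h3, h6]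
  · have h5 : (finrank K Λp : ℝ) - 1 ≤ 4 / s * n := by
      have h6 : s / 2 * height κ x / n * ((finrank K Λp : ℝ) - 1) ≤ 2 * height κ x := by
        push_cast at hb
        linarith only [hb, hht]
      have h7 : s / 2 * height κ x / n * (4 / s * n) = 2 * height κ x := by
        field_simp
        ring
      have h8 : 0 < s / 2 * height κ x / n := by (clear * - hs hH0 hn; positivity)
      exact le_of_mul_le_mul_left (by rw [h7]; exact h6) h8
    linarith only [h5]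

/-- all ranks are small (B2) -/
theorem cbq_rank_one (h : IsFF κ K) (hyp : HypQ κ x d c C₀ M E) (hC : 1000 ≤ C₀)
    (hn : 70 * (132 * C₀) ≤ n) (hcn : c ≤ n)
    (hA : ¬ CaseAP κ x d (1 / (132 * p * C₀)) (1 / 32)) {j₀ : Fin p} (hj : 2 ≤ d j₀)
    {W : Submodule K (EX (n + 1) (d j₀) → K)}
    (hW : HasSl κ (1 / 8 * height κ x / n) (xm (d j₀) x) W) :
    ∀ q ∈ lam 2 W, (finrank K (lam 1 (K ∙ q)) : ℝ) ≤ 65 / (132 * C₀) * n := by
  have hn' : (1000 : ℝ) ≤ n := by nlinarith only [hC, hn]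
  have hn1 : 1 ≤ n := by
    have : (1 : ℝ) ≤ n := by linarith only [hC, hn]
    exact_mod_cast this
  have hcn' : (c : ℝ) ≤ n := by exact_mod_cast hcn
  have hH := hyp.cb_pos
  have hΛ := hasSl_lam h hyp.ne hj hW
  obtain ⟨ν, V, h1, h2, h3, h4⟩ := cbq_rows h hyp hn1 (s := 1 / 8) (by norm_num) hΛ
  have hE : 2 * E ≤ height κ x := hyp.cb_big (by
    have := Hyp.cb_pow (n := n) hn1
    nlinarith only [hC, hn, this])
  have hp1 : (1 : ℝ) ≤ p := by exact_mod_cast hyp.cb_p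
  have hp0 : (0 : ℝ) < p := by linarith only [hp1]
  have h5 := cbp_sum (κ := κ) (H := (height κ x : ℝ)) (W := V)
    (μ := 1 / 32 * height κ x / n) (K := 1 / (132 * p * C₀) * n * height κ x) fun j => by
      by_contra h6
      push Not at h6
      exact hA ⟨j, V j, h1 j, h6.le⟩
  have hC0 : 0 < 132 * C₀ := by linarith only [hC]
  have hnpos : (0 : ℝ) < n := by linarith only [hC, hn]
  have hq : 0 < height κ x / (n : ℝ) := by (clear * - hH hn1; positivity)
  have e0 : (p : ℝ) * (1 / (132 * p * C₀) * n * height κ x) =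
      1 / (132 * C₀) * n * height κ x := by
    field_simp
  rw [e0] at h5
  have h6 : 1 / 32 * height κ x / n * (∑ j, (finrank K (V j) : ℝ) - p) ≤
      1 / 32 * (height κ x / n) * (2 * n + ν) := by
    have e1 : 1 / 32 * (height κ x : ℝ) / n = 1 / 32 * (height κ x / n) := by ring
    rw [e1]
    apply mul_le_mul_of_nonneg_left _ (by (clear * - hH hn1; positivity))
    linarith only [hcn', h2, hp1]
  have h7 : 1 / 32 * (height κ x / n) * (2 * n + ν) =
      1 / 16 * (height κ x : ℝ) + 1 / 32 * (height κ x / n) * ν := by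
    field_simp
    ring
  have h8 : 1 / 8 / 2 * (height κ x : ℝ) / n * ν = 1 / 16 * (height κ x / n) * ν := by ring
  rw [h8] at h3
  have h9 : (height κ x / n) * (ν : ℝ) ≤ (height κ x / n) * (32 / (132 * C₀) * n ^ 2) := by
    have e2 : (height κ x / n) * (32 / (132 * C₀) * (n : ℝ) ^ 2) =
        32 * (1 / (132 * C₀) * n * height κ x) := by
      field_simp
    rw [e2]
    linarith only [hH, h3, hE, h5, h6, h7]
  have h10 : (ν : ℝ) ≤ 32 / (132 * C₀) * n ^ 2 := le_of_mul_le_mul_left h9 hq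
  intro q hqΛ
  have h11 := h4 q hqΛ
  set ρ : ℝ := (finrank K (lam 1 (K ∙ q)) : ℝ) with hρ
  have hρ0 : 0 ≤ ρ := Nat.cast_nonneg _
  have hρn : ρ ≤ n + 1 := by
    have := cb_finrank_le (lam 1 (K ∙ q))
    rw [hρ]
    exact_mod_cast this
  have h12 : ρ * (n + 1) - ρ * (ρ - 1) / 2 ≥ ρ * n / 2 := by nlinarith
  have h13 : ρ * n ≤ 64 / (132 * C₀) * n ^ 2 + 70 * n := by
    have e3 : (4 : ℝ) / (1 / 8) = 32 := by norm_num
    rw [e3] at h11
    have e4 : 64 / (132 * C₀) * (n : ℝ) ^ 2 = 2 * (32 / (132 * C₀) * n ^ 2) := by ring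
    rw [e4]
    linarith only [hC, hn, hcn', h10, h11, h12]
  have h14 : 70 ≤ 1 / (132 * C₀) * (n : ℝ) := by
    rw [one_div, inv_mul_eq_div, le_div_iff₀ hC0]
    exact hn
  have h15 : ρ * n ≤ (65 / (132 * C₀) * n) * n := by
    have e5 : (65 / (132 * C₀) * (n : ℝ)) * n =
        64 / (132 * C₀) * n ^ 2 + (1 / (132 * C₀) * n) * n := by ring
    rw [e5]
    nlinarith only [h13, h14]
  exact le_of_mul_le_mul_right h15 hnpos

end

section

variable {κ : Type*} {K : Type u} [Field κ] [IsAlgClosed κ] [CharZero κ] [Field K] [Algebra κ K]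
  {n p : ℕ} {x : Fin (n + 1) → K} {d : Fin p → ℕ} {c : ℕ} {C₀ M E : ℝ}

/-- the cost of a space with slopes at least `H / 8 n` is at most `2 H` (B2) -/
theorem cbq_cost_one (h : IsFF κ K) (hyp : HypQ κ x d c C₀ M E) (hC : 1000 ≤ C₀)
    (hn : 70 * (132 * C₀) ≤ n) (hcn : c ≤ n)
    (hA : ¬ CaseAP κ x d (1 / (132 * p * C₀)) (1 / 32)) {j₀ : Fin p} (hj : 2 ≤ d j₀)
    {W : Submodule K (EX (n + 1) (d j₀) → K)}
    (hW : HasSl κ (1 / 8 * height κ x / n) (xm (d j₀) x) W) :
    d j₀ * (height κ x : ℝ) - ht κ W ≤ 2 * height κ x := by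
  have hn' : (1000 : ℝ) ≤ n := by nlinarith only [hC, hn]
  have hH0 := hyp.cb_pos
  have hnpos : (0 : ℝ) < n := by linarith
  have hd2 := hj
  have hrank := cbq_rank_one h hyp hC hn hcn hA hj hW
  have ht0 : 0 < 1 / 8 * (height κ x : ℝ) / n := by positivity
  have hMp := hyp.pos
  by_contra hcon
  push Not at hcon
  -- all quotients have slopes at most `M`
  have hQ : QS κ (lam 2 W) M := qs_of_cost h hyp.ne hMp hyp.slope ht0 hd2 hW (by
    push_cast
    linarith only [hMp, hcon])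
  obtain ⟨ε, hεd⟩ : ∃ ε : ℝ, ε = height κ x / (4 * (n + 1)) := ⟨_, rfl⟩
  have hε : 0 < ε := by rw [hεd]; positivity
  obtain ⟨L, _, _, _, _, _, _, q, hq, -, hht, -, hxq⟩ := maxrank_abs h hMp hQ hε
  have hL : IsFF κ L := h.of_finite
  have hN : (0 : ℝ) < finrank K L := by exact_mod_cast finrank_pos
  have hyp' := hyp.toL.ext (L := L) h
  have hΛ := hasSl_lam h hyp.ne hd2 hW
  have hx2 : xm 2 (fun k => algebraMap K L (x k)) ∈ bc L (lam 2 W) := by
    rw [xm_am]
    exact am_mem_bc hΛ.mem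
  have hs := cb_slope_one hL hyp'.ne hyp'.slope (hxq _ hx2)
  have hinf : Infinite K := Infinite.of_injective _ (algebraMap κ K).injective
  obtain ⟨q₀, hq₀, hqr⟩ := exists_rank_descent hq
  have hr : (finrank L (lam 1 (L ∙ q)) : ℝ) ≤ 65 / (132 * C₀) * n :=
    le_trans (by exact_mod_cast hqr) (hrank q₀ hq₀)
  have hH' : (height κ (fun k => algebraMap K L (x k)) : ℝ) = finrank K L * height κ x := by
    exact_mod_cast hL.height_ext (K := K) hyp.ne
  rw [hH'] at hs
  set ρ : ℝ := (finrank L (lam 1 (L ∙ q)) : ℝ) with hρ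
  have hρ0 : 0 ≤ ρ := Nat.cast_nonneg _
  have hρn : ρ ≤ n + 1 := by
    have := cb_finrank_le (lam 1 (L ∙ q))
    rw [hρ]
    exact_mod_cast this
  have hMn : M * ρ ≤ 65 / 132 * height κ x := by
    calc M * ρ ≤ M * (65 / (132 * C₀) * n) := mul_le_mul_of_nonneg_left hr hMp
      _ = 65 / (132 * C₀) * (M * n) := by ring
      _ ≤ 65 / (132 * C₀) * (C₀ * height κ x) := by
          apply mul_le_mul_of_nonneg_left hyp.small
          positivity
      _ = 65 / 132 * height κ x := by field_simp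
  have hερ : ρ * ε ≤ height κ x / 4 := by
    calc ρ * ε ≤ (n + 1) * ε := mul_le_mul_of_nonneg_right hρn hε.le
      _ = height κ x / 4 := by rw [hεd]; field_simp
  have h1 : (finrank K L : ℝ) * (height κ x) ≤
      finrank K L * (3 / 2 * (M * ρ) + ρ * ε / 2) := by
    have h2 : (finrank K L : ℝ) * M * (ρ - 1) ≤ finrank K L * M * ρ := by
      have : 0 ≤ (finrank K L : ℝ) * M := mul_nonneg hN.le hMp
      linarith only [this]
    have h3 : 2 * (ht κ (lam 1 (L ∙ q)) : ℝ) ≤ finrank K L * (M * ρ + ρ * ε) := by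
      refine hht.trans (le_of_eq ?_)
      ring
    have h4 : (finrank K L : ℝ) * (3 / 2 * (M * ρ) + ρ * ε / 2) =
        finrank K L * (M * ρ + ρ * ε) / 2 + finrank K L * M * ρ := by ring
    rw [h4]
    linarith only [hht, hs, h2]
  have h2 := le_of_mul_le_mul_left h1 hN
  linarith only [hH0, hMn, hερ, h2]

/-- the costs in the degree of one block (the inequality (**) of case B) -/
theorem cbq_cost_all (h : IsFF κ K) (hyp : HypQ κ x d c C₀ M E) (hC : 1000 ≤ C₀)
    (hn : 70 * (132 * C₀) ≤ n) (hcn : c ≤ n)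
    (hA : ¬ CaseAP κ x d (1 / (132 * p * C₀)) (1 / 32)) {j₀ : Fin p}
    {V : Submodule K (EX (n + 1) (d j₀) → K)} (hV : xm (d j₀) x ∈ V) :
    d j₀ * (height κ x : ℝ) - ht κ V ≤
      2 * height κ x + 1 / 8 * height κ x / n * ((finrank K V : ℝ) - 1) := by
  rcases Nat.lt_or_ge (d j₀) 2 with hj | hj
  · have hH := hyp.cb_pos
    have h1 : (0 : ℝ) ≤ ht κ V := by exact_mod_cast ht_nonneg h V
    have h2 : (d j₀ : ℝ) ≤ 2 := by exact_mod_cast hj.le
    have h3 := cb_one_le hyp.ne hV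
    have h4 : 0 ≤ 1 / 8 * (height κ x : ℝ) / n := by positivity
    have h5 : 0 ≤ 1 / 8 * (height κ x : ℝ) / n * ((finrank K V : ℝ) - 1) :=
      mul_nonneg h4 (by linarith only [h3])
    nlinarith only [h1, h5, hH, h2]
  obtain ⟨W, hW⟩ := exists_isSl h (1 / 8 * height κ x / n) (xm (d j₀) x)
  have h1 := cbq_cost_one h hyp hC hn hcn hA hj (cb_hasSl hW)
  have h2 := cb_max h hW hV
  have h3 := cb_one_le hyp.ne hW.mem
  have hH := hyp.cb_pos
  have h4 : 0 ≤ 1 / 8 * (height κ x : ℝ) / n := by (clear * - hH; positivity)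
  nlinarith only [h1, h2, h3, h4]

/-- all ranks are at most `30 p` (B3) -/
theorem cbq_rank_two (h : IsFF κ K) (hyp : HypQ κ x d c C₀ M E) (hC : 1000 ≤ C₀)
    (hn : 70 * (132 * C₀) ≤ n) (hcn : c ≤ n)
    (hA : ¬ CaseAP κ x d (1 / (132 * p * C₀)) (1 / 32)) {j₀ : Fin p} (hj : 2 ≤ d j₀)
    {W : Submodule K (EX (n + 1) (d j₀) → K)}
    (hW : HasSl κ (1 / 2 * height κ x / n) (xm (d j₀) x) W) :
    ∀ q ∈ lam 2 W, finrank K (lam 1 (K ∙ q)) ≤ 30 * p := by
  have hn' : (1000 : ℝ) ≤ n := by nlinarith only [hC, hn]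
  have hn1 : 1 ≤ n := by
    have : (1 : ℝ) ≤ n := by linarith only [hC, hn]
    exact_mod_cast this
  have hcn' : (c : ℝ) ≤ n := by exact_mod_cast hcn
  have hH0 := hyp.cb_pos
  have hnpos : (0 : ℝ) < n := by linarith only [hC, hn]
  have hp1 : (1 : ℝ) ≤ p := by exact_mod_cast hyp.cb_p
  have hΛ := hasSl_lam h hyp.ne hj hW
  obtain ⟨ν, V, h1, h2, h3, h4⟩ := cbq_rows h hyp hn1 (s := 1 / 2) (by norm_num) hΛ
  have h5 := cbp_sum (κ := κ) (H := (height κ x : ℝ)) (W := V)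
    (μ := 1 / 8 * height κ x / n) (K := 2 * height κ x) fun j =>
      cbq_cost_all h hyp hC hn hcn hA (h1 j)
  have hE : 8 * E ≤ height κ x := hyp.cb_big (by
    have := Hyp.cb_pow (n := n) hn1
    nlinarith only [hC, hn, this])
  have hq : 0 < height κ x / (n : ℝ) := by positivity
  have h6 : (height κ x / n) * (ν : ℝ) ≤ (height κ x / n) * (16 * p * n) := by
    have e1 : (height κ x / n) * (16 * p * (n : ℝ)) = 16 * (p * height κ x) := by field_simp
    have e2 : 1 / 2 / 2 * (height κ x : ℝ) / n * ν = 1 / 4 * ((height κ x / n) * ν) := by ring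
    have e3 : 1 / 8 * (height κ x : ℝ) / n * (∑ j, (finrank K (V j) : ℝ) - p) =
        1 / 8 * ((height κ x / n) * (∑ j, (finrank K (V j) : ℝ) - p)) := by ring
    have h7 : (height κ x / n) * (∑ j, (finrank K (V j) : ℝ) - p) ≤
        (height κ x / n) * (2 * n + ν) :=
      mul_le_mul_of_nonneg_left (by linarith only [hcn', hp1, h2]) hq.le
    have e4 : (height κ x / n) * (2 * (n : ℝ) + ν) = 2 * height κ x + (height κ x / n) * ν := by
      field_simp
    rw [e1]
    rw [e2] at h3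
    rw [e3] at h5
    rw [e4] at h7
    have h8 : (height κ x : ℝ) ≤ p * height κ x := by nlinarith only [hH0, hp1]
    linarith only [hH0, h3, h5, hE, h7]
  have h7 : (ν : ℝ) ≤ 16 * p * n := le_of_mul_le_mul_left h6 hq
  -- the maximiser at `H / 8 n` contains `W`
  obtain ⟨W₁, hW₁⟩ := exists_isSl h (1 / 8 * height κ x / n) (xm (d j₀) x)
  have hlt : 1 / 8 * (height κ x : ℝ) / n < 1 / 2 * height κ x / n := by
    apply div_lt_div_of_pos_right _ hnpos
    linarith only [hH0]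
  have hWW := hW.le_isSl h hlt hW₁
  intro q hqΛ
  have h8 := cbq_rank_one h hyp hC hn hcn hA hj (cb_hasSl hW₁) q (lam_mono hWW hqΛ)
  have h9 := h4 q hqΛ
  by_contra hcon
  push Not at hcon
  set ρ : ℝ := (finrank K (lam 1 (K ∙ q)) : ℝ) with hρ
  have hρ1 : 30 * (p : ℝ) + 1 ≤ ρ := by
    rw [hρ]
    exact_mod_cast hcon
  have h10 : ρ ≤ n / 2000 := by
    refine h8.trans ?_
    have h11 : 65 / (132 * C₀) ≤ 1 / 2000 := by
      rw [div_le_div_iff₀ (by linarith only [hC]) (by norm_num)]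
      linarith only [hC]
    calc 65 / (132 * C₀) * (n : ℝ) ≤ 1 / 2000 * n := by gcongr
      _ = n / 2000 := by ring
  have e5 : (4 : ℝ) / (1 / 2) = 8 := by norm_num
  rw [e5] at h9
  have h12 : 16 * (p : ℝ) * n + (1 + 8 * n) + n + n ≤ 26 * p * n + 1 := by nlinarith only [hp1]
  have h13 : ρ * (n + 1) - ρ * (ρ - 1) / 2 ≥ ρ * n * (3999 / 4000) := by nlinarith only [hC, hn,
      hcn', hp1, h7, h9, hρ1, h12, h10]
  have h14 : ρ * n ≥ (30 * p + 1) * n := by nlinarith only [hC, hn, hcn', h7, h9, h12, h13, hρ1]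
  have h15 : (0 : ℝ) < p * n := by positivity
  nlinarith only [hC, hn, hcn', h7, h9, h12, h13, h14]

end

end Pool.Agent.Lib.MP_44a246_ntSQ
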