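import Mathlib
import Pool.Agent.Lib.MP_44a246_ntSQ.SQ01
import Pool.Agent.Lib.MP_44a246_ntSH.AA1
import Pool.Agent.Lib.MP_44a246_ntSH.B12
import Pool.Agent.Lib.MP_44a246_ntO.OS7b

/-!
Pairs with linear forms: (B4) for `p` blocks of degrees at least `1`.
-/

namespace Pool.Agent.Lib.MP_44a246_ntSQ

open Pool.Agent.Lib.MP_44a246_nt
open Pool.Agent.Lib.MP_44a246_ntL
open Pool.Agent.Lib.MP_44a246_ntS
open Pool.Agent.Lib.MP_44a246_ntF
open Pool.Agent.Lib.MP_44a246_ntO
open Pool.Agent.Lib.MP_44a246_ntX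
open Pool.Agent.Lib.MP_44a246_ntSH
open Pool.Agent.Lib.MP_e52354_nt
open WithZero Module

universe u

variable {κ : Type*} {K : Type u} [Field κ] [IsAlgClosed κ] [CharZero κ] [Field K] [Algebra κ K]
  {n p : ℕ} {x : Fin (n + 1) → K} {d : Fin p → ℕ} {c : ℕ} {C₀ M E : ℝ}

/-- in some block of degree at least `2` the maximiser at `H / 2 n` has cost at least `H / 4 p` -/
theorem cbq_cost_half (h : IsFF κ K) (hyp : HypQ κ x d c C₀ M E) (hC : 1000 ≤ C₀) (hn1 : 1 ≤ n)
    (hcn : 4 * c ≤ n) (hn60 : 60 * C₀ * (p + c + 2) ≤ n) :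
    ∃ (j : Fin p) (W : Submodule K (EX (n + 1) (d j) → K)), 2 ≤ d j ∧
      IsSl κ (1 / 2 * height κ x / n) (xm (d j) x) W ∧
      height κ x / (4 * p) ≤ d j * (height κ x : ℝ) - ht κ W := by
  classical
  obtain ⟨U, h1, h2, h3, h4⟩ := hyp.rows0
  choose W hW using fun j => exists_isSl h (1 / 2 * height κ x / n) (xm (d j) x)
  have hH0 := hyp.cb_pos
  obtain ⟨H, hHd⟩ : ∃ H : ℝ, H = (height κ x : ℝ) := ⟨_, rfl⟩
  have hnpos : (0 : ℝ) < n := by exact_mod_cast hn1
  have hp1 : (1 : ℝ) ≤ p := by exact_mod_cast hyp.cb_p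
  have hp0 : (0 : ℝ) < p := by linarith
  have hcn' : 4 * (c : ℝ) ≤ n := by exact_mod_cast hcn
  have hc0 : (0 : ℝ) ≤ c := Nat.cast_nonneg _
  have hC0 : (0 : ℝ) < C₀ := by linarith
  have hE : 16 * E ≤ height κ x := hyp.cb_big (by
    have := Hyp.cb_pow (n := n) hn1
    nlinarith [show (1 : ℝ) ≤ n from by exact_mod_cast hn1])
  have hE0 := hyp.hE
  by_contra hcon
  push Not at hcon
  -- the blocks of degree at least `2`
  have h5 : ∀ j, 2 ≤ d j → d j * (height κ x : ℝ) - ht κ (U j) ≤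
      height κ x / (4 * p) + 1 / 2 * height κ x / n * (finrank K (U j) : ℝ) := by
    intro j hj
    have h5 := hcon j (W j) hj (hW j)
    have h6 := cb_max h (hW j) (h1 j)
    have h7 := cb_one_le hyp.ne (hW j).mem
    have h8 : 0 ≤ 1 / 2 * (height κ x : ℝ) / n := by positivity
    nlinarith
  -- the linear blocks
  have h6 : ∀ j, ¬ 2 ≤ d j → d j * (height κ x : ℝ) - ht κ (U j) ≤
      M * (finrank K (U j) : ℝ) := by
    intro j _
    have h5 := cost_le_aux h hyp.ne hyp.slope (hyp.hd1 j) (h1 j)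
    have h7 := hyp.pos
    nlinarith
  obtain ⟨a₁, ha₁⟩ : ∃ a₁ : ℝ, a₁ = ∑ j with ¬ 2 ≤ d j, (finrank K (U j) : ℝ) := ⟨_, rfl⟩
  obtain ⟨a₂, ha₂⟩ : ∃ a₂ : ℝ, a₂ = ∑ j with 2 ≤ d j, (finrank K (U j) : ℝ) := ⟨_, rfl⟩
  have ha₁0 : 0 ≤ a₁ := by
    rw [ha₁]
    exact Finset.sum_nonneg fun j _ => Nat.cast_nonneg _
  have hsum : a₂ + a₁ ≤ n + c := by
    rw [ha₁, ha₂, Finset.sum_filter_add_sum_filter_not]
    exact_mod_cast h2
  -- the costs
  have e1 : ∑ j with 2 ≤ d j, (d j * (height κ x : ℝ) - ht κ (U j)) ≤ H / 4 + 1 / 2 * H / n * a₂ := by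
    refine (Finset.sum_le_sum fun j hj => h5 j (Finset.mem_filter.1 hj).2).trans ?_
    rw [Finset.sum_add_distrib, ← Finset.mul_sum, ← ha₂, ← hHd, Finset.sum_const, nsmul_eq_mul]
    have h7 : ((Finset.univ.filter fun j => 2 ≤ d j).card : ℝ) ≤ p := by
      have := Finset.card_filter_le (Finset.univ : Finset (Fin p)) fun j => 2 ≤ d j
      rw [Finset.card_univ, Fintype.card_fin] at this
      exact_mod_cast this
    have h8 : ((Finset.univ.filter fun j => 2 ≤ d j).card : ℝ) * (H / (4 * p)) ≤ H / 4 := by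
      have h9 : 0 ≤ H / (4 * p) := by
        rw [hHd]
        positivity
      calc _ ≤ (p : ℝ) * (H / (4 * p)) := mul_le_mul_of_nonneg_right h7 h9
        _ = H / 4 := by field_simp
    linarith
  have e2 : ∑ j with ¬ 2 ≤ d j, (d j * (height κ x : ℝ) - ht κ (U j)) ≤ M * a₁ := by
    refine (Finset.sum_le_sum fun j hj => h6 j (Finset.mem_filter.1 hj).2).trans ?_
    rw [← Finset.mul_sum, ← ha₁]
  have e3 : 1 / 2 * H / n * a₂ ≤ 1 / 2 * H / n * (n + n / 4) := by
    refine mul_le_mul_of_nonneg_left (by linarith) ?_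
    rw [hHd]
    positivity
  have e4 : 1 / 2 * H / n * (n + n / 4) = 5 / 8 * H := by
    field_simp
    ring
  rw [← Finset.sum_filter_add_sum_filter_not (s := Finset.univ) (p := fun j => 2 ≤ d j)] at h3
  rw [← ha₁] at h4
  rw [← hHd] at hE hH0
  rcases le_or_gt (n : ℝ) (60 * C₀ * a₁) with h7 | h7
  · -- the linear blocks have large dimension
    have h8 : p + c + 2 ≤ a₁ := by
      have h9 : 60 * C₀ * (p + c + 2) ≤ 60 * C₀ * a₁ := hn60.trans h7
      exact le_of_mul_le_mul_left h9 (by positivity)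
    have h9 : ∑ j with 2 ≤ d j, (d j * (height κ x : ℝ) - ht κ (U j)) =
        (∑ j with 2 ≤ d j, (d j : ℝ)) * H - ∑ j with 2 ≤ d j, (ht κ (U j) : ℝ) := by
      rw [Finset.sum_sub_distrib, Finset.sum_mul, hHd]
    have h10 : (n : ℝ) + 2 - p ≤ ∑ j with 2 ≤ d j, (d j : ℝ) := by
      have h11 : ((n + 2 : ℕ) : ℝ) ≤ ∑ j, (d j : ℝ) := by
        have := hyp.hd
        exact_mod_cast this
      rw [← Finset.sum_filter_add_sum_filter_not (s := Finset.univ) (p := fun j => 2 ≤ d j)] at h11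
      have h12 : ∑ j with ¬ 2 ≤ d j, (d j : ℝ) ≤ p := by
        have h13 : ∑ j with ¬ 2 ≤ d j, (d j : ℝ) ≤ ∑ j with ¬ 2 ≤ d j, (1 : ℝ) := by
          refine Finset.sum_le_sum fun j hj => ?_
          have h14 := (Finset.mem_filter.1 hj).2
          have h15 : d j ≤ 1 := by omega
          exact_mod_cast h15
        refine h13.trans ?_
        rw [Finset.sum_const, nsmul_eq_mul, mul_one]
        have := Finset.card_filter_le (Finset.univ : Finset (Fin p)) fun j => ¬ 2 ≤ d j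
        rw [Finset.card_univ, Fintype.card_fin] at this
        exact_mod_cast this
      push_cast at h11
      linarith
    rw [← hHd] at h4
    have h11 : ((n : ℝ) + 2 - p) * H ≤ (∑ j with 2 ≤ d j, (d j : ℝ)) * H :=
      mul_le_mul_of_nonneg_right h10 hH0.le
    have h12 : (p + c + 2) * H ≤ a₁ * H := mul_le_mul_of_nonneg_right h8 hH0.le
    rw [h9] at e1
    have h13 : ((n : ℝ) + 2 - p) * H = n * H + 2 * H - p * H := by ring
    have h14 : ((p : ℝ) + c + 2) * H = p * H + c * H + 2 * H := by ring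
    have h15 : ((n : ℝ) + c + 1) * H = n * H + c * H + H := by ring
    linarith
  · have h8 : M * a₁ ≤ H / 60 := by
      have h9 : M * (60 * C₀ * a₁) ≤ M * n := mul_le_mul_of_nonneg_left h7.le hyp.pos
      have h10 := hyp.small
      rw [← hHd] at h10
      have h11 : C₀ * (60 * (M * a₁)) ≤ C₀ * H := by
        have h12 : C₀ * (60 * (M * a₁)) = M * (60 * C₀ * a₁) := by ring
        linarith
      have h12 := le_of_mul_le_mul_left h11 hC0
      linarith
    rw [← hHd] at h3 e1 e2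
    linarith

/-- (B4): the dimension of `lam 1 W` -/
theorem cbq_dim_one (h : IsFF κ K) (hyp : HypQ κ x d c C₀ M E) (hn1 : 1 ≤ n) {j₀ : Fin p}
    {W : Submodule K (EX (n + 1) (d j₀) → K)}
    (hW : IsSl κ (1 / 2 * height κ x / n) (xm (d j₀) x) W)
    (hc : height κ x / (4 * p) ≤ d j₀ * (height κ x : ℝ) - ht κ W) :
    (height κ x : ℝ) < finrank K (lam 1 W) * (4 * p * M) := by
  by_contra hcon
  push Not at hcon
  have hH0 := hyp.cb_pos
  have hnpos : (0 : ℝ) < n := by exact_mod_cast hn1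
  have hp1 : (1 : ℝ) ≤ p := by exact_mod_cast hyp.cb_p
  have hp0 : (0 : ℝ) < p := by linarith
  have hd1 : 1 ≤ d j₀ := hyp.hd1 j₀
  have hxm : xm 1 x ∈ lam 1 W := xm_mem_lam hd1 hyp.ne hW.mem
  have hs := cb_slope_one h hyp.ne hyp.slope hxm
  have h1 := cb_one_le hyp.ne hxm
  have hM := hyp.pos
  obtain ⟨D, hD⟩ : ∃ D : ℝ, D = (finrank K (lam 1 W) : ℝ) := ⟨_, rfl⟩
  rw [← hD] at hs h1 hcon
  have hne : lam 1 W ≠ ⊥ := by
    intro h0
    rw [hD, h0, finrank_bot] at h1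
    norm_num at h1
  have hD0 : 0 ≤ D := by linarith
  have hMD : 0 ≤ M * D := mul_nonneg hM hD0
  -- `4 M D ≤ 4 p M D ≤ H`
  have hcon2 : 4 * (M * D) ≤ height κ x := by
    have h2 : 4 * (M * D) ≤ 4 * p * (M * D) := mul_le_mul_of_nonneg_right (by linarith) hMD
    have h3 : 4 * p * (M * D) = D * (4 * p * M) := by ring
    linarith
  have hsz : M * finrank K (lam 1 W) < ht κ (lam 1 W) := by
    rw [← hD]
    have h2 : M * (D - 1) ≤ M * D := by nlinarith
    linarith
  obtain ⟨L, _, _, _, _, _, _, l, τ, b, hτ, hsum, hb, hl, hm⟩ := absolute_siegel h hne hsz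
  have hL : IsFF κ L := h.of_finite
  have hN : (0 : ℝ) < finrank K L := by exact_mod_cast finrank_pos
  have hyp' := hyp.toL.ext (L := L) h
  obtain ⟨x', hx'⟩ : ∃ x' : Fin (n + 1) → L, x' = fun k => algebraMap K L (x k) := ⟨_, rfl⟩
  rw [← hx'] at hyp'
  have hH' : (height κ x' : ℝ) = finrank K L * height κ x := by
    rw [hx']
    exact_mod_cast hL.height_ext (K := K) hyp.ne
  obtain ⟨W', hW'⟩ : ∃ W' : Submodule L (EX (n + 1) (d j₀) → L), W' = bc L W := ⟨_, rfl⟩
  have ht0 : 0 < 1 / 2 * (height κ x : ℝ) / n := by positivity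
  have hHas : HasSl κ (finrank K L * (1 / 2 * (height κ x : ℝ) / n)) (xm (d j₀) x') W' := by
    rw [hx', hW', xm_am]
    exact HasSl_bc h (cb_hasSl hW)
  have hlam : lam 1 W' = bc L (lam 1 W) := by rw [hW', lam_bc]
  have hf : Fnl κ (lam 1 W') b (pf l) τ := by
    rw [hlam]
    exact fnl_of_row hτ hsum hl hm
  have hNt : 0 < (finrank K L : ℝ) * (1 / 2 * (height κ x : ℝ) / n) := mul_pos hN ht0
  have hNM : 0 ≤ (finrank K L : ℝ) * M := mul_nonneg hN.le hM
  obtain ⟨R, hRW, hxR, hdim, hcost⟩ := p3b hL hyp'.ne hyp'.slope (i := 1) (k := 1) (by omega) le_rfl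
    hHas (by linarith) (by push_cast; linarith) hf
  push_cast at hcost
  have hR0 : (0 : ℝ) ≤ ht κ R := by exact_mod_cast ht_nonneg hL R
  obtain ⟨Q, hQ1, hQ2, hQ3⟩ := contact hL hyp'.ne hd1 hRW hHas.mem hxR hdim
  have hQs := cb_slope_one hL hyp'.ne hyp'.slope hQ2
  have hcW : (finrank K L : ℝ) * (height κ x / (4 * p)) ≤
      d j₀ * (height κ x' : ℝ) - ht κ W' := by
    rw [hH', hW', ht_bc h]
    push_cast
    have h2 := mul_le_mul_of_nonneg_left hc hN.le
    linarith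
  have hQc : (finrank K L : ℝ) * (height κ x / (4 * p)) ≤ (height κ x' : ℝ) - ht κ Q := by
    rcases hQ3 with hQ3 | hQ3
    · linarith
    · have : (ht κ Q : ℝ) ≤ ht κ R := by exact_mod_cast hQ3
      linarith
  have h4 : (finrank L Q : ℝ) ≤ D := by
    have h5 := Submodule.finrank_mono hQ1
    rw [hlam, finrank_bc] at h5
    rw [hD]
    exact_mod_cast h5
  have h5 : (finrank K L : ℝ) * M * ((finrank L Q : ℝ) - 1) ≤ finrank K L * M * (D - 1) :=
    mul_le_mul_of_nonneg_left (by linarith) hNM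
  have h6 : (finrank K L : ℝ) * (height κ x / (4 * p)) ≤ finrank K L * (M * (D - 1)) := by
    linarith
  have h7 := le_of_mul_le_mul_left h6 hN
  rw [div_le_iff₀ (by positivity)] at h7
  -- `H ≤ 4 p M (D - 1)`, so `M > 0` and the inequality is strict
  have h8 : D * (4 * p * M) = M * (D - 1) * (4 * p) + 4 * p * M := by ring
  rcases hM.eq_or_lt with h9 | h9
  · rw [← h9] at h7
    linarith
  · have : 0 < 4 * p * M := by positivity
    linarith

/-- (B4): the cost of `lam 2 W` -/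
theorem cbq_cost_two (h : IsFF κ K) (hyp : HypQ κ x d c C₀ M E) (hC : 1000 ≤ C₀)
    (hn : 70 * (132 * C₀) ≤ n) (hcn : c ≤ n) (hnp : 60 * p * (4 * p * C₀ + 1) ≤ n)
    (hA : ¬ CaseAP κ x d (1 / (132 * p * C₀)) (1 / 32)) {j₀ : Fin p} (hj : 2 ≤ d j₀)
    {W : Submodule K (EX (n + 1) (d j₀) → K)}
    (hW : IsSl κ (1 / 2 * height κ x / n) (xm (d j₀) x) W)
    (hc : height κ x / (4 * p) ≤ d j₀ * (height κ x : ℝ) - ht κ W) :
    1 / (120 * p * (4 * p * C₀ + 1)) * height κ x ≤ 2 * (height κ x : ℝ) - ht κ (lam 2 W) := by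
  have hn' : (1000 : ℝ) ≤ n := by nlinarith
  have hn1 : 1 ≤ n := by
    have : (1 : ℝ) ≤ n := by linarith
    exact_mod_cast this
  have hH0 := hyp.cb_pos
  have hnpos : (0 : ℝ) < n := by linarith
  have hp1 : (1 : ℝ) ≤ p := by exact_mod_cast hyp.cb_p
  have hp0 : (0 : ℝ) < p := by linarith
  have hC0 : 0 < C₀ := by linarith
  have hHas := cb_hasSl hW
  have hΛ := hasSl_lam h hyp.ne hj hHas
  have hrank := cbq_rank_two h hyp hC hn hcn hA hj hHas
  have h1 := cbq_dim_one h hyp hn1 hW hc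
  have h2 : finrank K (lam 1 W) ≤ finrank K (lam 2 W) * (30 * p) := by
    rw [← lam_lam (i := 1) (i' := 2) (by norm_num) hj]
    exact cb_lam_sum _ hrank
  have h3 := cost_ge h hyp.ne hΛ
  have h4 : (finrank K (lam 1 W) : ℝ) ≤ finrank K (lam 2 W) * (30 * p) := by exact_mod_cast h2
  have hM := hyp.pos
  have h5 : 4 * p * M * n ≤ (4 * p * C₀ + 1) * height κ x := by
    have h6 := hyp.small
    have h7 : 4 * p * (M * n) ≤ 4 * p * (C₀ * height κ x) :=
      mul_le_mul_of_nonneg_left h6 (by positivity)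
    nlinarith
  obtain ⟨D, hD⟩ : ∃ D : ℝ, D = (finrank K (lam 2 W) : ℝ) := ⟨_, rfl⟩
  rw [← hD] at h3 h4
  have hD0 : 0 ≤ D := by rw [hD]; exact Nat.cast_nonneg _
  obtain ⟨B, hB⟩ : ∃ B : ℝ, B = 30 * p * (4 * p * C₀ + 1) := ⟨_, rfl⟩
  have hB0 : 0 < B := by rw [hB]; positivity
  -- `n < 30 p D (4 p C₀ + 1)`
  have h6 : (height κ x : ℝ) * n < height κ x * (D * B) := by
    have h7 : (height κ x : ℝ) < D * (30 * p) * (4 * p * M) := by
      refine h1.trans_le ?_
      exact mul_le_mul_of_nonneg_right h4 (by positivity)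
    calc (height κ x : ℝ) * n < D * (30 * p) * (4 * p * M) * n :=
          mul_lt_mul_of_pos_right h7 hnpos
      _ = D * (30 * p) * (4 * p * M * n) := by ring
      _ ≤ D * (30 * p) * ((4 * p * C₀ + 1) * height κ x) := by
          apply mul_le_mul_of_nonneg_left h5
          positivity
      _ = height κ x * (D * B) := by rw [hB]; ring
  have h7 : (n : ℝ) < D * B := lt_of_mul_lt_mul_left h6 hH0.le
  have h8 : 1 / (120 * p * (4 * p * C₀ + 1)) * height κ x ≤
      1 / 2 * (height κ x : ℝ) / n * (D - 1) := by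
    have e1 : 1 / 2 * (height κ x : ℝ) / n * (D - 1) = (D - 1) / (2 * n) * height κ x := by
      field_simp
    have e2 : 120 * (p : ℝ) * (4 * p * C₀ + 1) = 4 * B := by rw [hB]; ring
    rw [e1, e2]
    apply mul_le_mul_of_nonneg_right _ hH0.le
    rw [div_le_div_iff₀ (by positivity) (by positivity)]
    have h9 : 2 * B ≤ n := by rw [hB]; linarith
    nlinarith
  push_cast at h3
  linarith

end Pool.Agent.Lib.MP_44a246_ntSQ
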