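import Mathlib
import Pool.Agent.Lib.MP_44a246_ntSQ.SQ02
import Pool.Agent.Lib.MP_44a246_ntSH.AB3

/-!
Pairs with linear forms: case B is impossible.
-/

namespace Pool.Agent.Lib.MP_44a246_ntSQ

open Pool.Agent.Lib.MP_44a246_nt
open Pool.Agent.Lib.MP_44a246_ntL
open Pool.Agent.Lib.MP_44a246_ntS
open Pool.Agent.Lib.MP_44a246_ntF
open Pool.Agent.Lib.MP_44a246_ntO
open Pool.Agent.Lib.MP_44a246_ntX
open Pool.Agent.Lib.MP_44a246_ntSH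
open Pool.Agent.Lib.MP_e52354_nt
open WithZero Module

universe u v

/-- **Case B is impossible**, `p` blocks of degrees at least `1`. -/
theorem caseBQ (p c : ℕ) (C₀ : ℝ) (hC : 1000 ≤ C₀) : ∃ n₀ : ℕ, ∀ (n : ℕ) (d : Fin p → ℕ),
    n₀ ≤ n →
    ∀ (κ : Type u) (K : Type v) [Field κ] [IsAlgClosed κ] [CharZero κ] [Field K] [Algebra κ K]
      (_ : IsFF κ K) (x : Fin (n + 1) → K) (M E : ℝ), HypQ κ x d c C₀ M E →
      CaseAP κ x d (1 / (132 * p * C₀)) (1 / 32) := by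
  rcases Nat.eq_zero_or_pos p with hp0 | hp
  · subst hp0
    refine ⟨0, fun n d _ κ K _ _ _ _ _ h x M E hyp => ?_⟩
    exact absurd hyp.cb_p (by norm_num)
  have hp1 : (1 : ℝ) ≤ p := by exact_mod_cast hp
  obtain ⟨c₁, hcd⟩ : ∃ c₁ : ℝ, c₁ = 1 / (120 * p * (4 * p * C₀ + 1)) := ⟨_, rfl⟩
  have hc : 0 < c₁ := by rw [hcd]; positivity
  have hc1 : c₁ ≤ 1 := by
    rw [hcd, div_le_one (by positivity)]
    have h1 : (1 : ℝ) ≤ 4 * p * C₀ + 1 := by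
      have : 0 ≤ 4 * (p : ℝ) * C₀ := by positivity
      linarith
    exact one_le_mul_of_one_le_of_one_le (by linarith) h1
  obtain ⟨N, hN⟩ : ∃ N : ℕ, 25 * ((30 * p : ℕ) : ℝ) / c₁ ≤ N := exists_nat_ge _
  have hN' : 25 * ((30 * p : ℕ) : ℝ) ≤ c₁ * N := by
    rw [div_le_iff₀ hc] at hN
    linarith
  obtain ⟨n₀, hn₀⟩ := exists_nat_ge (70 * (132 * C₀) + 4 * c + 60 * p * (4 * p * C₀ + 1) +
    2 * ((30 * p : ℕ) : ℝ) * C₀ + 60 * C₀ * (p + c + 2) +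
    (2 * ((30 * p : ℕ) : ℝ) + (((30 * p : ℕ) : ℝ) + 1) * 2 ^ N) * C₀ * 8 / c₁)
  have h1 : 0 ≤ (2 * ((30 * p : ℕ) : ℝ) + (((30 * p : ℕ) : ℝ) + 1) * 2 ^ N) * C₀ * 8 / c₁ := by
    positivity
  have h4 : (0 : ℝ) ≤ c := Nat.cast_nonneg _
  have h5 : 0 ≤ 60 * p * (4 * p * C₀ + 1) := by positivity
  have h6 : 0 ≤ 2 * ((30 * p : ℕ) : ℝ) * C₀ := by positivity
  have h60 : 0 ≤ 60 * C₀ * (p + c + 2) := by positivity
  refine ⟨n₀, fun n d hn κ K _ _ _ _ _ h x M E hyp => ?_⟩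
  have hn' : (n₀ : ℝ) ≤ n := by exact_mod_cast hn
  by_contra hA
  have hn1 : 70 * (132 * C₀) ≤ n := by linarith
  have hcn4 : 4 * c ≤ n := by
    have : (4 : ℝ) * c ≤ n := by linarith
    exact_mod_cast this
  have hcn : c ≤ n := by omega
  have hnp : 60 * p * (4 * p * C₀ + 1) ≤ n := by linarith
  have hn60 : 60 * C₀ * (p + c + 2) ≤ n := by linarith
  have hnC : 2 * ((30 * p : ℕ) : ℝ) * C₀ ≤ n := by linarith
  have hnc : (2 * ((30 * p : ℕ) : ℝ) + (((30 * p : ℕ) : ℝ) + 1) * 2 ^ N) * C₀ * 8 ≤ c₁ * n := by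
    have h7 : (2 * ((30 * p : ℕ) : ℝ) + (((30 * p : ℕ) : ℝ) + 1) * 2 ^ N) * C₀ * 8 / c₁ ≤ n := by
      linarith
    rw [div_le_iff₀ hc] at h7
    linarith
  have hn2 : 1 ≤ n := by
    have : (1 : ℝ) ≤ n := by linarith
    exact_mod_cast this
  obtain ⟨j, W, hj, hW, hc4⟩ := cbq_cost_half h hyp hC hn2 hcn4 hn60
  have h8 := cbq_cost_two h hyp hC hn1 hcn hnp hA hj hW hc4
  have h9 := cba_five h hyp.toL hn2 (ρ := 30 * p) (by omega) hc hc1 hN' hnC hnc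
    (hasSl_lam h hyp.ne hj (cb_hasSl hW))
    (cbq_rank_two h hyp hC hn1 hcn hA hj (cb_hasSl hW))
  rw [← hcd] at h8
  linarith

end Pool.Agent.Lib.MP_44a246_ntSQ
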