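import Mathlib
import Pool.Agent.Lib.MP_44a246_ntSQ.SQ01
import Pool.Agent.Lib.MP_44a246_ntSH.AA1

/-!
Pairs with linear forms: paper 619, section 5, (A1)-(A3).
-/

namespace Pool.Agent.Lib.MP_44a246_ntSQ

open Pool.Agent.Lib.MP_44a246_nt
open Pool.Agent.Lib.MP_44a246_ntL
open Pool.Agent.Lib.MP_44a246_ntS
open Pool.Agent.Lib.MP_44a246_ntF
open Pool.Agent.Lib.MP_44a246_ntO
open Pool.Agent.Lib.MP_44a246_ntX
open Pool.Agent.Lib.MP_44a246_ntSH
open Pool.Agent.Lib.MP_e52354_nt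
open WithZero Module

universe u v

section

variable {κ K : Type*} [Field κ] [IsAlgClosed κ] [CharZero κ] [Field K] [Algebra κ K] {n p : ℕ}
  {x : Fin (n + 1) → K} {d : Fin p → ℕ} {c : ℕ} {C₀ M E : ℝ}

/-- (A1): the rows, from a quadratic form of large rank -/
theorem stepA1bQ (h : IsFF κ K) (hyp : HypQ κ x d c C₀ M E) (hC : 0 < C₀) {s τ : ℝ} (hτ : 0 < τ)
    (hτs : τ / 8 ≤ s) {Λ : Submodule K (EX (n + 1) 2 → K)}
    (hΛ : HasSl κ (s * height κ x / n) (xm 2 x) Λ)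
    {q : EX (n + 1) 2 → K} (hq : q ∈ Λ)
    (hrk : (n : ℝ) / (2 * C₀) ≤ finrank K (lam 1 (K ∙ q)))
    (hn : 1 ≤ n) (hcn : c ≤ n)
    (hsz : 20 * C₀ * (3 + 16 / τ) ≤ n) :
    ∃ (ν : ℕ) (W : (j : Fin p) → Submodule K (EX (n + 1) (d j) → K)), (∀ j, xm (d j) x ∈ W j) ∧
      ∑ j, finrank K (W j) ≤ n + ν + c ∧
      1 / (5 * C₀) * (n : ℝ) ^ 2 ≤ ν ∧
      (s - τ / 8) * (height κ x / n) * ν ≤ ∑ j, (d j * (height κ x : ℝ) - ht κ (W j)) := by
  have hx := hyp.ne
  set H : ℝ := (height κ x : ℝ) with hH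
  have hHpos : 0 < H := hyp.toL.H_pos
  have hn0 : (1 : ℝ) ≤ n := by exact_mod_cast hn
  have hnpos : (0 : ℝ) < n := by linarith only [hn0]
  have hcn' : (c : ℝ) ≤ n := by exact_mod_cast hcn
  have ht' : (0 : ℝ) ≤ τ / 8 * H / n := by (clear * - hτ hHpos hn; positivity)
  have htt : τ / 8 * H / n ≤ s * H / n := by gcongr
  obtain ⟨Λ', hΛΛ', hmax⟩ := exists_above h ht' Λ
  obtain ⟨ν, W, hxW, hWd, hWc, hν⟩ := hyp.rows Λ Λ' (s * H / n) (τ / 8 * H / n) ht' htt hΛ hΛΛ'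
    (fun Γ hΓ => by
      have := hmax Γ (hΛΛ'.trans hΓ)
      linarith only [this])
  refine ⟨ν, W, hxW, hWd, ?_, ?_⟩
  · have h1 := finrank_above h hx ht' htt hΛ (hmax Λ le_rfl)
    have h2 : ((finrank K Λ' : ℝ) - 1) ≤ 16 * n / τ := by
      rw [le_div_iff₀ hτ]
      have h3 : τ / 8 * H / n * ((finrank K Λ' : ℝ) - 1) =
          (((finrank K Λ' : ℝ) - 1) * τ) * (H / (8 * n)) := by
        field_simp
      have h4 : ((2 : ℕ) : ℝ) * H = 16 * n * (H / (8 * n)) := by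
        push_cast
        field_simp
        norm_num
      rw [h3, h4] at h1
      exact le_of_mul_le_mul_right h1 (by positivity)
    have h3 := hν q hq
    set ρ : ℝ := (finrank K (lam 1 (K ∙ q)) : ℝ) with hρ
    have h4 : ρ ≤ n + 1 := by
      have := finrank_lam_one_le (K ∙ q)
      rw [hρ]
      exact_mod_cast this
    have h0 : 0 ≤ ρ := Nat.cast_nonneg _
    have h5 : ρ * n / 2 ≤ ρ * (n + 1) - ρ * (ρ - 1) / 2 := by
      linarith only [mul_nonneg h0 (sub_nonneg.2 h4), h0]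
    have h6 : n / (2 * C₀) * n / 2 ≤ ρ * n / 2 := by gcongr
    have h7 : n / (2 * C₀) * n / 2 = (n : ℝ) ^ 2 / (4 * C₀) := by
      field_simp
      norm_num
    have h8 : (n : ℝ) ^ 2 / (4 * C₀) ≤ ν + (1 + 16 * n / τ) + n + c := by linarith only [h2, h3,
        h5, h6, h7]
    have h9 : n * (3 + 16 / τ) ≤ (n : ℝ) ^ 2 / (20 * C₀) := by
      rw [le_div_iff₀ (by positivity)]
      linarith only [mul_le_mul_of_nonneg_left hsz hnpos.le]
    have h10 : (n : ℝ) ^ 2 / (4 * C₀) = 1 / (5 * C₀) * (n : ℝ) ^ 2 + (n : ℝ) ^ 2 / (20 * C₀) := by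
      field_simp
      norm_num
    have h11 : n * (3 + 16 / τ) = 3 * n + 16 * n / τ := by ring
    linarith only [hn0, hcn', h2, h3, h5, h6, h7, h9, h10, h11]
  · refine le_trans ?_ hWc
    have h2 : E ≤ H := by
      have h5 : (1 : ℝ) ≤ ((n : ℝ) + 2) ^ 20 := one_le_pow₀ (by linarith only [hn0])
      have h6 := hyp.cb_big h5
      rwa [one_mul] at h6
    have h3 : H ≤ ((∑ j, (d j : ℝ)) - n - 1) * H := hyp.cb_k
    have h4 : (s - τ / 8) * (H / n) * ν = (s * H / n - τ / 8 * H / n) * ν := by ring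
    rw [h4]
    linarith only [h2, h3]

/-- (A2) for `p` blocks: the space `W`. The slopes of `W` are at least `(s - τ) H / n`; the cost of
`W` is large. -/
theorem stepA2Q (h : IsFF κ K) (hyp : HypQ κ x d c C₀ M E) (hC : 1 ≤ C₀) {s τ η : ℝ} (hτ : 0 < τ)
    (hτs : τ ≤ s) (hsC : s ≤ C₀) (hητ : η ≤ τ * (1 / (5 * (p * C₀))) / 8)
    (hsz : 2 * C₀ ≤ τ * (1 / (5 * (p * C₀))) * n / 8) (hn : 1 ≤ n) (hcn : c ≤ n)
    {ν : ℕ} {W' : (j : Fin p) → Submodule K (EX (n + 1) (d j) → K)}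
    (hxW : ∀ j, xm (d j) x ∈ W' j) (hWd : ∑ j, finrank K (W' j) ≤ n + ν + c)
    (hν : 1 / (5 * C₀) * (n : ℝ) ^ 2 ≤ ν)
    (hc : (s - τ / 8) * (height κ x / n) * ν ≤ ∑ j, (d j * (height κ x : ℝ) - ht κ (W' j)))
    (hsat : ∀ (j : Fin p) (V : Submodule K (EX (n + 1) (d j) → K)), xm (d j) x ∈ V →
      d j * (height κ x : ℝ) - ht κ V - (s + τ / 4) * height κ x / n * ((finrank K V : ℝ) - 1) ≤
        η * n * height κ x) :
    ∃ (j : Fin p) (W : Submodule K (EX (n + 1) (d j) → K)),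
      HasSl κ ((s - τ) * height κ x / n) (xm (d j) x) W ∧
      (s - τ) * (1 / (5 * (p * C₀))) * n * height κ x / 2 ≤ d j * (height κ x : ℝ) - ht κ W := by
  have hx := hyp.ne
  have hHpos' : (0 : ℝ) < height κ x := hyp.toL.H_pos
  obtain ⟨H, hH⟩ : ∃ H : ℝ, H = (height κ x : ℝ) := ⟨_, rfl⟩
  rw [← hH] at hc hsat ⊢
  have hHpos : 0 < H := by rw [hH]; exact hHpos'
  have hn0 : (1 : ℝ) ≤ n := by exact_mod_cast hn
  have hnpos : (0 : ℝ) < n := by linarith only [hn0]
  have hcn' : (c : ℝ) ≤ n := by exact_mod_cast hcn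
  have hp1 : (1 : ℝ) ≤ p := by exact_mod_cast hyp.cb_p
  have hp0 : (0 : ℝ) < p := by linarith only [hp1]
  obtain ⟨c₂, hc₂⟩ : ∃ c₂ : ℝ, c₂ = 1 / (5 * (p * C₀)) := ⟨_, rfl⟩
  have hc₂pos : 0 < c₂ := by rw [hc₂]; positivity
  have hcp : 1 / (5 * C₀) = p * c₂ := by
    rw [hc₂]
    field_simp
  rw [hcp] at hν
  rw [← hc₂] at hητ hsz ⊢
  have hsτ : 0 ≤ (s - τ) * H / n := by
    have : 0 ≤ s - τ := by linarith only [hτs]
    (clear * - hτs hHpos hn; positivity)
  -- one block has large excess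
  obtain ⟨j, hj⟩ : ∃ j : Fin p, (7 / 8 * τ * c₂ * n - 2 * C₀) * H ≤
      d j * H - ht κ (W' j) - (s - τ) * H / n * ((finrank K (W' j) : ℝ) - 1) := by
    by_contra hcon
    push Not at hcon
    have h1 := cbp_sum (κ := κ) (H := H) (W := W') (μ := (s - τ) * H / n)
      (K := (7 / 8 * τ * c₂ * n - 2 * C₀) * H) fun j => by
        have := hcon j
        linarith only [this]
    have h3 : ∑ j, (finrank K (W' j) : ℝ) ≤ n + ν + c := by exact_mod_cast hWd
    have h5 : (s - τ) * H / n * (∑ j, (finrank K (W' j) : ℝ) - p) ≤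
        (s - τ) * H / n * (2 * n + ν - 1) :=
      mul_le_mul_of_nonneg_left (by linarith only [hcn', hp1, h3]) hsτ
    have h6 : (s - τ) * H / n * (2 * n + ν - 1) = 2 * ((s - τ) * H) + (s - τ) * (H / n) * ν -
        (s - τ) * H / n := by
      field_simp
    have h7 : (s - τ / 8) * (H / n) * ν - (s - τ) * (H / n) * ν = 7 / 8 * τ * (H / n) * ν := by
      ring
    have h8 : 7 / 8 * τ * (H / n) * (p * c₂ * (n : ℝ) ^ 2) ≤ 7 / 8 * τ * (H / n) * ν :=
      mul_le_mul_of_nonneg_left hν (by positivity)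
    have h9 : 7 / 8 * τ * (H / n) * (p * c₂ * (n : ℝ) ^ 2) = p * (7 / 8 * τ * c₂ * n * H) := by
      field_simp
    have h10 : (s - τ) * H ≤ C₀ * H - τ * H := by
      linarith only [mul_le_mul_of_nonneg_right hsC hHpos.le]
    have h11 : (p : ℝ) * ((7 / 8 * τ * c₂ * n - 2 * C₀) * H) =
      p * (7 / 8 * τ * c₂ * n * H) - 2 * (p * (C₀ * H)) := by ring
    have h12 : C₀ * H ≤ p * (C₀ * H) := by
      have : 0 ≤ C₀ * H := by positivity
      exact le_mul_of_one_le_left this hp1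
    have h13 : 0 < τ * H := by positivity
    linarith only [hc, hsτ, h1, h5, h6, h8, h9, h10, h12, h13]
  obtain ⟨W, hWW', hW, hle⟩ := exists_hasSl h ((s - τ) * H / n) (hxW j)
  refine ⟨j, W, hW, ?_⟩
  rw [hH] at hW
  have h1 := cost_ge h hx hW
  rw [← hH] at h1
  -- the excess of `W`
  have h2 : (7 / 8 * τ * c₂ * n - 2 * C₀) * H ≤
      d j * H - ht κ W - (s - τ) * H / n * ((finrank K W : ℝ) - 1) := by
    have e2 : (s - τ) * H / n * ((finrank K W : ℝ) - 1) =
      (s - τ) * H / n * finrank K W - (s - τ) * H / n := by ring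
    have e3 : (s - τ) * H / n * ((finrank K (W' j) : ℝ) - 1) =
      (s - τ) * H / n * finrank K (W' j) - (s - τ) * H / n := by ring
    rw [e2]
    rw [e3] at hj
    linarith only [hj, hle]
  have h3 := hsat j W hW.mem
  -- the dimension of `W`
  have h4 : (7 / 8 * τ * c₂ * n - 2 * C₀ - η * n) * H ≤
      5 / 4 * τ * (H / n) * ((finrank K W : ℝ) - 1) := by
    have e1 : (s + τ / 4) * H / n * ((finrank K W : ℝ) - 1) -
        (s - τ) * H / n * ((finrank K W : ℝ) - 1) =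
        5 / 4 * τ * (H / n) * ((finrank K W : ℝ) - 1) := by ring
    have e2 : (7 / 8 * τ * c₂ * n - 2 * C₀ - η * n) * H =
        (7 / 8 * τ * c₂ * n - 2 * C₀) * H - η * n * H := by ring
    rw [e2]
    linarith only [hj, hle, h3, e1]
  have h5 : 5 / 8 * τ * c₂ * n ≤ 7 / 8 * τ * c₂ * n - 2 * C₀ - η * n := by
    have h6 : η * n ≤ τ * c₂ / 8 * n := mul_le_mul_of_nonneg_right hητ hnpos.le
    linarith only [hsz, h6]
  have h6 : c₂ * (n : ℝ) ^ 2 / 2 ≤ (finrank K W : ℝ) - 1 := by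
    have h7 : 5 / 8 * τ * c₂ * n * H ≤ 5 / 4 * τ * (H / n) * ((finrank K W : ℝ) - 1) :=
      (mul_le_mul_of_nonneg_right h5 hHpos.le).trans h4
    have h8 : 5 / 8 * τ * c₂ * n * H = 5 / 4 * τ * (H / n) * (c₂ * (n : ℝ) ^ 2 / 2) := by
      field_simp
      norm_num
    rw [h8] at h7
    exact le_of_mul_le_mul_left h7 (by positivity)
  have h7 : (s - τ) * H / n * (c₂ * (n : ℝ) ^ 2 / 2) ≤ (s - τ) * H / n * ((finrank K W : ℝ) - 1) :=
    mul_le_mul_of_nonneg_left h6 hsτ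
  have h8 : (s - τ) * H / n * (c₂ * (n : ℝ) ^ 2 / 2) = (s - τ) * c₂ * n * H / 2 := by
    field_simp
  rw [h8] at h7
  exact h7.trans h1

end

/-- **Case A** (paper 619, (A1)-(A3)) for `p` blocks: there is a space `W` of functionals on forms
of degree `d j` with large slopes such that the spaces of its contractions in the degrees
`e ≤ c₃ n` have very small height (`θ` can be as small as a constant divided by `n`). -/
theorem caseAQ (p c : ℕ) (C₀ : ℝ) (hC : 1000 ≤ C₀) : ∃ C₇ : ℝ, 0 < C₇ ∧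
    ∀ (n : ℕ) (d : Fin p → ℕ) (θ : ℝ), C₇ ≤ n → 0 < θ → C₇ ≤ θ * n →
    ∀ (κ : Type u) (L : Type v) [Field κ] [IsAlgClosed κ] [CharZero κ] [Field L] [Algebra κ L]
      (_ : IsFF κ L) (x : Fin (n + 1) → L) (M E : ℝ), HypQ κ x d c C₀ M E →
      CaseAP κ x d (1 / (132 * p * C₀)) (1 / 32) →
      ∃ (j : Fin p) (s : ℝ) (W : Submodule L (EX (n + 1) (d j) → L)), 1 / 64 ≤ s ∧ s ≤ C₀ ∧
        HasSl κ (s * height κ x / n) (xm (d j) x) W ∧ (n : ℝ) / (6000 * (p * C₀)) ≤ d j ∧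
        ∀ e : ℕ, 1 ≤ e → (e : ℝ) ≤ n / (6000 * (p * C₀)) →
          (ht κ (lam e W) : ℝ) ≤ θ * e ^ 2 * height κ x / n ∧
          (finrank L (lam e W) : ℝ) ≤ 1 + e * n / s := by
  rcases Nat.eq_zero_or_pos p with hp0 | hp
  · subst hp0
    refine ⟨1, one_pos, fun n d θ _ _ _ κ L _ _ _ _ _ h x M E hyp _ => ?_⟩
    exact absurd hyp.cb_p (by norm_num)
  have hp1 : (1 : ℝ) ≤ p := by exact_mod_cast hp
  have hC0 : (0 : ℝ) < C₀ := by linarith
  obtain ⟨K, hK⟩ : ∃ K : ℝ, K = p * C₀ := ⟨_, rfl⟩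
  have hKC : C₀ ≤ K := by
    rw [hK]
    exact le_mul_of_one_le_left hC0.le hp1
  have hK0 : 0 < K := by linarith
  obtain ⟨Y, hY⟩ : ∃ Y : ℝ, Y = (12 * C₀ + 12) * (5 * K) * (1024 * K) := ⟨_, rfl⟩
  have hY0 : 0 < Y := by rw [hY]; positivity
  have hCK : 1000 ≤ K := by linarith
  have hC1 : 12 * C₀ * 5000 ≤ Y := by
    rw [hY]
    have h1 : (12 * C₀) * 5000 ≤ (12 * C₀ + 12) * (5 * K) :=
      mul_le_mul (by linarith) (by linarith) (by norm_num) (by linarith)
    have h2 : (12 * C₀ + 12) * (5 * K) * 1 ≤ (12 * C₀ + 12) * (5 * K) * (1024 * K) :=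
      mul_le_mul_of_nonneg_left (by linarith) (by positivity)
    linarith
  have hC2 : 80 * C₀ * K ≤ Y := by
    have h1 : Y = (12 * C₀ * 5120 * K + 12 * 5120 * K) * K := by rw [hY]; ring
    rw [h1]
    refine mul_le_mul_of_nonneg_right ?_ hK0.le
    have h2 : 12 * C₀ * 5120 * 1 ≤ 12 * C₀ * 5120 * K :=
      mul_le_mul_of_nonneg_left (by linarith) (by positivity)
    have h3 : 0 < 12 * 5120 * K := by positivity
    linarith only [hC, hKC, h2]
  refine ⟨400000 * K * Y + 120 * C₀ + 24 + c + 16 * K, by positivity,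
    fun n d θ hn hθ hθn κ L _ _ _ _ _ h x M E hyp hcase => ?_⟩
  have hYK : Y ≤ 400000 * K * Y := le_mul_of_one_le_left hY0.le (by linarith only [hCK])
  have hKY0 : 0 < 400000 * K * Y := by positivity
  have hc0 : (0 : ℝ) ≤ c := Nat.cast_nonneg _
  set τ : ℝ := min (1 / 64) (θ / (400000 * K)) with hτdef
  have hτ : 0 < τ := lt_min (by norm_num) (by positivity)
  have hτ64 : τ ≤ 1 / 64 := min_le_left _ _
  have hτθ : τ * (400000 * K) ≤ θ := by
    have h1 : τ ≤ θ / (400000 * K) := min_le_right _ _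
    rwa [le_div_iff₀ (by positivity)] at h1
  have hn24 : (24 : ℝ) ≤ n := by linarith only [hC, hKC, hC1, hn, hYK, hτ, hτ64]
  have hn24' : 24 ≤ n := by exact_mod_cast hn24
  have hcn : c ≤ n := by
    have : (c : ℝ) ≤ n := by linarith only [hC, hKC, hC1, hn, hYK, hτ, hτ64]
    exact_mod_cast this
  have hnpos : (0 : ℝ) < n := by linarith only [hC, hKC, hC1, hn, hYK, hτ, hτ64]
  have hτn : Y ≤ τ * n := by
    rcases min_choice (1 / 64 : ℝ) (θ / (400000 * K)) with h1 | h1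
    · rw [hτdef, h1]
      have h2 : 400000 * 1000 * Y ≤ 400000 * K * Y := by gcongr
      linarith only [hC, hKC, hC1, hn, hτ, hτ64, h2]
    · rw [hτdef, h1, div_mul_eq_mul_div, le_div_iff₀ (by positivity)]
      linarith only [hC, hKC, hθn, hτ, hτ64]
  set c₂ : ℝ := 1 / (5 * K) with hc₂
  have hc₂pos : 0 < c₂ := by positivity
  set η : ℝ := τ * c₂ / (1024 * K) with hηdef
  have hη : 0 < η := by positivity
  have hnη : 12 * C₀ + 12 ≤ η * n := by
    have h1 : η * n = τ * n / (5 * K * (1024 * K)) := by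
      rw [hηdef, hc₂]
      field_simp
    rw [h1, le_div_iff₀ (by positivity)]
    have h2 : (12 * C₀ + 12) * (5 * K * (1024 * K)) = Y := by rw [hY]; ring
    linarith only [hY, hτn]
  have hn2 : 20 * C₀ * (3 + 16 / τ) ≤ n := by
    have h1 : 320 * C₀ / τ ≤ n / 2 := by
      rw [div_le_iff₀ hτ]
      linarith only [hC, hC1, hτ, hτ64, hτn]
    have h2 : 20 * C₀ * (3 + 16 / τ) = 60 * C₀ + 320 * C₀ / τ := by ring
    linarith only [hC, hKC, hC1, hn, hYK, hτ, hτ64, h1, h2]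
  have hn3 : 2 * C₀ ≤ τ * c₂ * n / 8 := by
    have h1 : τ * c₂ * n / 8 = τ * n / (40 * K) := by
      rw [hc₂]
      field_simp
      norm_num
    rw [h1, le_div_iff₀ (by positivity)]
    linarith only [hC2, hτn]
  have hn4 : 16 * K ≤ n := by linarith only [hC, hC1, hn, hYK, hτ, hτ64]
  have hn5 : 1 ≤ τ * n := by linarith only [hC, hC1, hτ, hτ64, hτn]
  have hx := hyp.ne
  have hO := hyp.toL
  have hHpos : (0 : ℝ) < height κ x := hO.H_pos
  have hηc : η ≤ 1 / (132 * p * C₀) := by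
    have h0 : 132 * p * C₀ = 132 * K := by rw [hK]; ring
    have h1 : η = τ * (c₂ / (1024 * K)) := by rw [hηdef]; ring
    have h2 : c₂ ≤ 1 := by
      rw [hc₂, div_le_iff₀ (by positivity)]
      linarith only [hC, hKC, hτ, hτ64]
    have h3 : c₂ / (1024 * K) ≤ 1 / (132 * K) :=
      div_le_div₀ zero_le_one h2 (by positivity) (by linarith only [hC, hKC, hτ, hτ64])
    have h4 : 0 ≤ 1 / (132 * K) := by positivity
    rw [h1, h0]
    have h5 : 0 ≤ c₂ / (1024 * K) := by positivity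
    exact (mul_le_of_le_one_left h5 (by linarith only [hτ64])).trans h3
  -- levels at least `C₀` are not attained
  have hbig : ∀ s : ℝ, C₀ ≤ s → ¬ LevP κ x d η s := by
    rintro s hs ⟨j, e, h1, h2, W, h3, h4⟩
    have hdj := hyp.hd1 j
    have h5 := cost_le_aux h hx hyp.slope (by omega : 1 ≤ e) h3
    have h6 : (1 : ℝ) ≤ finrank L W := by
      exact_mod_cast one_le_finrank_aux (xm_ne_zero (d := e) hx) h3
    have h7 : M ≤ s * height κ x / n := by
      rw [le_div_iff₀ hnpos]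
      exact hyp.small.trans (mul_le_mul_of_nonneg_right hs hHpos.le)
    have h8 : M * ((finrank L W : ℝ) - 1) ≤ s * height κ x / n * ((finrank L W : ℝ) - 1) :=
      mul_le_mul_of_nonneg_right h7 (by linarith only [h6])
    have h9 : 0 < η * n * height κ x := by (clear * - hθ hK0 hn24' hHpos; positivity)
    linarith only [h4, h5, h8, h9]
  -- the first level
  have hfirst : LevP κ x d η (1 / 32) := by
    obtain ⟨j, W, h1, h2⟩ := hcase
    refine ⟨j, d j, by omega, le_rfl, W, h1, le_trans ?_ h2⟩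
    have h3 : η * n * height κ x ≤ 1 / (132 * p * C₀) * n * height κ x := by gcongr
    linarith only [h3]
  -- the critical level
  obtain ⟨s, hs1, hs2, hs3, hs4⟩ : ∃ s : ℝ, 1 / 32 ≤ s ∧ s ≤ C₀ ∧ LevP κ x d η s ∧
      ¬ LevP κ x d η (s + τ / 4) := by
    classical
    have hex : ∃ j : ℕ, ¬ LevP κ x d η (1 / 32 + j * (τ / 4)) := by
      obtain ⟨j, hj⟩ := exists_nat_ge (C₀ / (τ / 4))
      refine ⟨j, hbig _ ?_⟩
      rw [div_le_iff₀ (by positivity)] at hj
      linarith only [hτ, hτ64, hj]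
    have h0 : Nat.find hex ≠ 0 := by
      intro h0
      have h1 := Nat.find_spec hex
      rw [h0] at h1
      apply h1
      simpa using hfirst
    obtain ⟨j, hj⟩ := Nat.exists_eq_succ_of_ne_zero h0
    have h1 : LevP κ x d η (1 / 32 + j * (τ / 4)) := by
      have := Nat.find_min hex (m := j) (by omega)
      exact not_not.1 this
    refine ⟨1 / 32 + j * (τ / 4), ?_, ?_, h1, ?_⟩
    · have : (0 : ℝ) ≤ j * (τ / 4) := by (clear * - hθ hK0; positivity)
      linarith only [this]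
    · by_contra h2
      exact hbig _ (not_le.1 h2).le h1
    · have h2 := Nat.find_spec hex
      rw [hj] at h2
      have e1 : (1 / 32 + (j : ℝ) * (τ / 4) + τ / 4) = 1 / 32 + ((j.succ : ℕ) : ℝ) * (τ / 4) := by
        push_cast
        ring
      rw [e1]
      exact h2
  have hsat : ∀ (j : Fin p) (r : ℕ), d j ≤ 2 * r → r ≤ d j →
      ∀ V : Submodule L (EX (n + 1) r → L), xm r x ∈ V →
      r * (height κ x : ℝ) - ht κ V - (s + τ / 4) * height κ x / n * ((finrank L V : ℝ) - 1) ≤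
        η * n * height κ x := by
    intro j r h1 h2 V h3
    by_contra h4
    push Not at h4
    exact hs4 ⟨j, r, h1, h2, V, h3, by linarith only [h4]⟩
  obtain ⟨j₀, e₀, he1, he2, W₀, hxW₀, hW₀⟩ := hs3
  obtain ⟨W₁, -, hW₁, hle₁⟩ := exists_hasSl h (s * height κ x / n) hxW₀
  have hs0 : 0 < s := by linarith only [hτ, hτ64, hs1]
  have hc₁ : η * n * height κ x ≤ e₀ * (height κ x : ℝ) - ht κ W₁ := by
    have h1 : (1 : ℝ) ≤ finrank L W₁ := by
      exact_mod_cast one_le_finrank_aux (xm_ne_zero (d := e₀) hx) hW₁.mem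
    have h2 : 0 ≤ s * height κ x / n * ((finrank L W₁ : ℝ) - 1) :=
      mul_nonneg (by positivity) (by linarith only [h1])
    linarith only [hW₀, hle₁, h2]
  have hηe : η * n ≤ e₀ := by
    have h1 : (0 : ℝ) ≤ ht κ W₁ := by exact_mod_cast ht_nonneg h W₁
    have h2 : η * n * (height κ x : ℝ) ≤ e₀ * height κ x := by linarith only [hc₁, h1]
    exact le_of_mul_le_mul_right h2 hHpos
  have he2' : 2 ≤ e₀ := by
    have h1 : (2 : ℝ) ≤ e₀ := by linarith only [hC, hτ, hτ64, hnη, hηe]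
    exact_mod_cast h1
  obtain ⟨q, hq, hrk⟩ := stepA1L h hO hC0 (t := s * height κ x / n) (by positivity) hη
    hW₁ hc₁ hn24' (by linarith only [hC, hτ, hτ64, hnη]) (by linarith only [hτ, hτ64, hnη])
  obtain ⟨ν, W', hxW', hWd, hν, hc'⟩ := stepA1bQ h hyp hC0 hτ (by linarith only [hτ, hτ64, hs1])
    (hasSl_lam h hx he2' hW₁) hq hrk (by omega) hcn hn2
  have hητ : η ≤ τ * c₂ / 8 := by
    rw [hηdef]
    exact div_le_div_of_nonneg_left (by positivity) (by norm_num) (by linarith only [hC, hKC, hτ,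
        hτ64])
  obtain ⟨j, W, hW, hc⟩ := stepA2Q h hyp (by linarith only [hC, hτ,
      hτ64]) hτ (by linarith only [hτ, hτ64, hs1]) hs2
    (by rw [← hK]; exact hητ) (by rw [← hK]; exact hn3) (by omega) hcn
    hxW' hWd hν hc' (fun j => hsat j (d j) (by omega) le_rfl)
  rw [← hK] at hc
  have hσ : 1 / 64 ≤ s - τ := by linarith only [hτ64, hs1]
  have hηs : η * (1 + (s + τ / 4) / τ) < (s - τ) * c₂ / 4 := by
    have h1 : (1 + (s + τ / 4) / τ) = (5 / 4 * τ + s) / τ := by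
      field_simp
      ring
    have h2 : η * ((5 / 4 * τ + s) / τ) = c₂ * ((5 / 4 * τ + s) / (1024 * K)) := by
      rw [hηdef]
      field_simp
    have h3 : (5 / 4 * τ + s) / (1024 * K) < 1 / 256 := by
      rw [div_lt_iff₀ (by positivity)]
      linarith only [hC, hKC, hτ, hτ64, hs2]
    rw [h1, h2]
    have h4 : c₂ * ((5 / 4 * τ + s) / (1024 * K)) < c₂ * (1 / 256) :=
      mul_lt_mul_of_pos_left h3 hc₂pos
    linarith only [h4, mul_le_mul_of_nonneg_right hσ hc₂pos.le]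
  have hdj : (n : ℝ) / (6000 * K) ≤ d j := by
    have h1 : (0 : ℝ) ≤ ht κ W := by exact_mod_cast ht_nonneg h W
    have h2 : (s - τ) * c₂ * n / 2 * height κ x ≤ d j * height κ x := by
      have e1 : (s - τ) * c₂ * n / 2 * height κ x = (s - τ) * c₂ * n * height κ x / 2 := by ring
      rw [e1]
      linarith only [hc, h1]
    have h3 := le_of_mul_le_mul_right h2 hHpos
    refine le_trans ?_ h3
    have h4 : 1 / 64 * c₂ * n / 2 ≤ (s - τ) * c₂ * n / 2 := by gcongr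
    refine le_trans ?_ h4
    have h5 : 1 / 64 * c₂ * n / 2 = n / (640 * K) := by
      rw [hc₂]
      field_simp
      norm_num
    rw [h5]
    exact div_le_div_of_nonneg_left hnpos.le (by positivity) (by linarith only [hC, hKC, hτ, hτ64])
  refine ⟨j, s - τ, W, hσ, by linarith only [hτ, hs2], hW, by rw [← hK]; exact hdj,
      fun e he hen => ?_⟩
  rw [← hK] at hen
  have hed : e ≤ d j := by
    have h2 : (e : ℝ) ≤ d j := hen.trans hdj
    exact_mod_cast h2
  have hO' := hO.mono hKC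
  exact stepA3bL h hO' (by linarith only [hC, hKC, hτ, hτ64]) hτ hσ (by linarith only [hKC, hτ,
      hs2]) hτθ (by omega) hn4 hW he hed
    (qs_A3 h hO' (by linarith only [hC, hKC, hτ, hτ64]) hτ hσ (by linarith only [hKC,
        hs2]) hη.le hηs (by omega) hW hc
      (fun r => hsat j r) he hen)

end Pool.Agent.Lib.MP_44a246_ntSQ
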