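import Mathlib
import Pool.Agent.Lib.MP_44a246_ntSQ.SQ06
import Pool.Agent.Lib.MP_44a246_ntSH.RV9

/-!
Pairs with linear forms: the data for the rows from the derivations dual to the coefficients of
several forms (as `exists_rowU`), with the height of the quotients of the space of the rows.
-/

namespace Pool.Agent.Lib.MP_44a246_ntSQ

open Pool.Agent.Lib.MP_44a246_nt
open Pool.Agent.Lib.MP_44a246_ntL
open Pool.Agent.Lib.MP_44a246_ntS
open Pool.Agent.Lib.MP_44a246_ntX
open Pool.Agent.Lib.MP_44a246_ntG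
open Pool.Agent.Lib.MP_44a246_ntF
open Pool.Agent.Lib.MP_44a246_ntO
open Pool.Agent.Lib.MP_44a246_ntA
open Pool.Agent.Lib.MP_44a246_ntK (DatC)
open Pool.Agent.Lib.MP_44a246_ntSH
open Pool.Agent.Lib.MP_e52354_nt
open WithZero Module

section

variable {κ L : Type*} [Field κ] [IsAlgClosed κ] [CharZero κ] [Field L] [CharZero L] [Algebra κ L]
  {n p : ℕ} {d : Fin p → ℕ}

private theorem sum_poles (X : DatC κ (L := L) n d) {τ : Place κ L → ℕ}
    (hτ : (Function.support τ).Finite) :
    ∑ᶠ w : Place κ L, ((X.δ w + X.ρ w + 2 * τ w : ℕ) : ℤ) =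
      X.Δ + X.R + 2 * ∑ᶠ w, (τ w : ℤ) := by
  have f1 : (Function.support fun w => (X.δ w : ℤ)).Finite :=
    X.hδ.subset fun w hw => by
      rw [Function.mem_support] at hw ⊢
      exact fun h => hw (by rw [h, Nat.cast_zero])
  have f2 : (Function.support fun w => (X.ρ w : ℤ)).Finite :=
    X.hρ.subset fun w hw => by
      rw [Function.mem_support] at hw ⊢
      exact fun h => hw (by rw [h, Nat.cast_zero])
  have f3 : (Function.support fun w => (τ w : ℤ)).Finite :=
    hτ.subset fun w hw => by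
      rw [Function.mem_support] at hw ⊢
      exact fun h => hw (by rw [h, Nat.cast_zero])
  have f4 : (Function.support fun w => (X.δ w : ℤ) + (X.ρ w : ℤ)).Finite :=
    (f1.union f2).subset (Function.support_add _ _)
  have f5 : (Function.support fun w => 2 * (τ w : ℤ)).Finite :=
    f3.subset fun w hw => by
      rw [Function.mem_support] at hw ⊢
      exact fun h => hw (by rw [h, mul_zero])
  have e1 : (fun w : Place κ L => ((X.δ w + X.ρ w + 2 * τ w : ℕ) : ℤ)) =
      fun w => ((X.δ w : ℤ) + (X.ρ w : ℤ)) + 2 * (τ w : ℤ) := by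
    funext w
    push_cast
    ring
  have e2 : 2 * ∑ᶠ w : Place κ L, (τ w : ℤ) = ∑ᶠ w : Place κ L, 2 * (τ w : ℤ) :=
    mul_finsum (fun w : Place κ L => (τ w : ℤ)) 2
  rw [e1, finsum_add_distrib f4 f5, finsum_add_distrib f1 f2, e2]
  rfl

/-- **The data for the rows.** -/
theorem exists_rowU1 (h : IsFF κ L) (X : DatC κ (L := L) n d) {j₀ : Fin p}
    {P : EX (n + 1) (d j₀) → Matrix (Fin (n + 1)) (Fin (n + 1)) L}
    (hP : ∀ i l i' l', ∑ J, mm (X.a j₀) i l J.1 * P J i' l' = if i = i' ∧ l = l' then 1 else 0)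
    {τ : Place κ L → ℕ} (hτ : (Function.support τ).Finite)
    (ha : ∀ (w : Place κ L) j, ∀ I ∈ expo (Fin (n + 1)) (d j), w.1 (X.a j I) ≤ exp (τ w : ℤ))
    (hPτ : ∀ (w : Place κ L) J i l, w.1 (P J i l) ≤ exp (τ w : ℤ))
    {ε : Place κ L → ℕ} (hε : (Function.support ε).Finite)
    (hvε : ∀ w : Place κ L, (∀ j, X.v j ≠ 0 → w.1 (X.v j) = vmax w.1 X.x ^ d j) ∨ 1 ≤ ε w) :
    ∃ R : RowU κ (L := L) n p (Σ j : Fin p, EX (n + 1) (d j)), R.x = X.x ∧
      R.Δ = X.Δ + X.R + 2 * ∑ᶠ w, (τ w : ℤ) ∧ (∀ j, xmj d R.x j ∈ R.U) ∧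
      ht κ R.U ≤ (n + 1) * height κ R.x + (n + p) * R.Δ + p * ∑ᶠ w, (ε w : ℤ) ∧
      ∀ K ≤ R.U, ht κ R.U ≤ ht κ K + height κ R.x * ((finrank L R.U : ℤ) - finrank L K + 1) +
        (n + p) * R.Δ + p * ∑ᶠ w, (ε w : ℤ) := by
  classical
  obtain ⟨A, hA⟩ : ∃ A : (Σ j : Fin p, EX (n + 1) (d j)) →
      Matrix (Fin (n + 1)) (Fin (n + 1)) L, A = PJ d j₀ P := ⟨_, rfl⟩
  have hAτ : ∀ (w : Place κ L) s i l, w.1 (A s i l) ≤ exp (τ w : ℤ) := by
    intro w s i l
    rw [hA]
    exact val_PJ_le w.1 (hPτ w) s i l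
  have hx0 : X.x ≠ 0 := by
    intro h0
    have h1 := X.h0
    simp [h0] at h1
  have hpole : ∀ (s : Σ j : Fin p, EX (n + 1) (d j)) (w : Place κ L) (y : L), w.1 y ≤ 1 →
      w.1 (X.D (s.1, s.2.1) y) ≤ exp ((X.δ w + X.ρ w : ℕ) : ℤ) := by
    intro s w y hy
    have h1 := X.hD w 1 (fun _ => (s.1, s.2.1)) (fun _ => y) (fun _ => s.2.2) (fun _ => hy)
    rw [Matrix.det_fin_one, Matrix.of_apply, one_mul] at h1
    exact h1
  have hMA : ∀ (s s' : Σ j : Fin p, EX (n + 1) (d j)) (w : Place κ L),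
      w.1 (MJ d X.a (A s) s') ≤ exp ((2 * τ w : ℕ) : ℤ) := by
    intro s s' w
    refine (val_MJ_le w.1 (ha w) (hAτ w s) s').trans (le_of_eq ?_)
    rw [← exp_add]
    congr 1
    push_cast
    ring
  obtain ⟨δ, hδd⟩ : ∃ δ : Place κ L → ℕ, δ = fun w => X.δ w + X.ρ w + 2 * τ w := ⟨_, rfl⟩
  have hδ : (Function.support δ).Finite := by
    refine ((X.hδ.union X.hρ).union hτ).subset fun w hw => ?_
    rw [Function.mem_support, hδd] at hw
    by_contra hcon
    simp only [Set.mem_union, Function.mem_support, not_or, not_not] at hcon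
    apply hw
    simp only [hcon.1.1, hcon.1.2, hcon.2, mul_zero, add_zero]
  have hD : ∀ s, PoleBound κ (DJ X A s) δ := by
    intro s w y hy
    rw [DJ_apply, hδd]
    refine (Valuation.map_sub _ _ _).trans (max_le ?_ ?_)
    · refine (hpole s w y hy).trans ?_
      rw [exp_le_exp]
      push_cast
      omega
    · refine Valuation.map_sum_le _ fun s' _ => ?_
      rw [map_mul]
      refine (mul_le_mul' (hMA s s' w) (hpole s' w y hy)).trans (le_of_eq ?_)
      rw [← exp_add]
      congr 1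
      push_cast
      ring
  have hAδ : ∀ (w : Place κ L) s i l, w.1 (A s i l) ≤ exp (δ w : ℤ) := by
    intro w s i l
    refine (hAτ w s i l).trans ?_
    rw [exp_le_exp, hδd]
    push_cast
    omega
  -- the additional rows
  obtain ⟨r, hr⟩ : ∃ r : Fin p → (Σ j : Fin p, EX (n + 1) (d j)) → L,
      r = fun j s => if X.v j = 0 then 0 else
        (d j : L) * r1L X.x (DJ X A) A (fun i => (X.ξ₀ i : L)) s - DJ X A s (X.v j) / X.v j :=
    ⟨_, rfl⟩
  obtain ⟨U, hU⟩ : ∃ U : Submodule L ((Σ j : Fin p, EX (n + 1) (d j)) → L),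
      U = U1 X.x (DJ X A) A ⊔ Submodule.span L (Set.range r) := ⟨_, rfl⟩
  have hUU : U1 X.x (DJ X A) A ≤ U := by rw [hU]; exact le_sup_left
  have hmem1 : ∀ y, ∑ i, y i * X.x i = 0 → r1L X.x (DJ X A) A y ∈ U1 X.x (DJ X A) A :=
    fun y hy => ⟨y, mem_orth_single.2 hy, rfl⟩
  have hxm : ∀ j, xmj d X.x j ∈ U := by
    intro j
    have h1 : ∀ s, r1L X.x (DJ X A) A (grad (d j) (X.a j) X.x) s =
        DJ X A s (X.v j) - xmj d X.x j s := fun s => grad_DJ X A s j
    have h2 : ∑ i, grad (d j) (X.a j) X.x i * X.x i = d j * X.v j := sum_grad_mul _ _ _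
    by_cases hv : X.v j = 0
    · have h3 : xmj d X.x j = - r1L X.x (DJ X A) A (grad (d j) (X.a j) X.x) := by
        funext s
        rw [Pi.neg_apply, h1, hv, map_zero]
        ring
      rw [h3]
      refine Submodule.neg_mem _ (hUU (hmem1 _ ?_))
      rw [h2, hv, mul_zero]
    · obtain ⟨y, hy⟩ : ∃ y : Fin (n + 1) → L, y = grad (d j) (X.a j) X.x -
          ((d j : L) * X.v j) • (fun i => (X.ξ₀ i : L)) := ⟨_, rfl⟩
      have hyx : ∑ i, y i * X.x i = 0 := by
        have h3 : ∑ i, y i * X.x i = (∑ i, grad (d j) (X.a j) X.x i * X.x i) -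
            ((d j : L) * X.v j) * ∑ i, (X.ξ₀ i : L) * X.x i := by
          rw [Finset.mul_sum, ← Finset.sum_sub_distrib]
          refine Finset.sum_congr rfl fun i _ => ?_
          rw [hy, Pi.sub_apply, Pi.smul_apply, smul_eq_mul]
          ring
        rw [h3, h2, X.h0, mul_one, sub_self]
      have h4 : xmj d X.x j = - r1L X.x (DJ X A) A y - X.v j • r j := by
        funext s
        rw [Pi.sub_apply, Pi.neg_apply, Pi.smul_apply, smul_eq_mul, hr, hy, map_sub, map_smul,
          Pi.sub_apply, Pi.smul_apply, smul_eq_mul, h1]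
        simp only [if_neg hv]
        field_simp
        ring
      rw [h4]
      refine Submodule.sub_mem _ (Submodule.neg_mem _ (hUU (hmem1 _ hyx)))
        (Submodule.smul_mem _ _ ?_)
      rw [hU]
      exact Submodule.mem_sup_right (Submodule.subset_span ⟨j, rfl⟩)
  have hfU : finrank L U ≤ n + p := by
    rw [hU]
    refine (Submodule.finrank_add_le_finrank_add_finrank _ _).trans (add_le_add ?_ ?_)
    · exact finrank_U1_le hx0 _ _
    · refine (finrank_range_le_card r).trans ?_
      rw [Fintype.card_fin]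
  -- the additional rows at a place
  have hδε : (Function.support fun w => δ w + ε w).Finite :=
    (hδ.union hε).subset (Function.support_add _ _)
  have hloc : ∀ (w : Place κ L) (k : Fin p), ∃ u ∈ U1 X.x (DJ X A) A, ∀ s,
      w.1 (r k s - u s) ≤ exp ((δ w + ε w : ℕ) : ℤ) := by
    intro w k
    by_cases hv : X.v k = 0
    · refine ⟨0, Submodule.zero_mem _, fun s => ?_⟩
      rw [hr]
      simp only [if_pos hv, Pi.zero_apply, sub_zero, map_zero]
      exact zero_le
    obtain ⟨i₀, hi0, hiv, him⟩ := exists_vmax w.1 hx0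
    obtain ⟨y, hy⟩ : ∃ y : Fin (n + 1) → L, y = (d k : L) •
        ((fun i => (X.ξ₀ i : L)) - (X.x i₀)⁻¹ • Pi.single i₀ 1) := ⟨_, rfl⟩
    have hyx : ∑ i, y i * X.x i = 0 := by
      have h3 : ∑ i, y i * X.x i = (d k : L) * ((∑ i, (X.ξ₀ i : L) * X.x i) -
          (X.x i₀)⁻¹ * ∑ i, (Pi.single i₀ 1 : Fin (n + 1) → L) i * X.x i) := by
        rw [Finset.mul_sum, ← Finset.sum_sub_distrib, Finset.mul_sum]
        refine Finset.sum_congr rfl fun i _ => ?_
        rw [hy, Pi.smul_apply, Pi.sub_apply, Pi.smul_apply, smul_eq_mul, smul_eq_mul]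
        ring
      rw [h3, X.h0, Finset.sum_eq_single i₀]
      · rw [Pi.single_eq_same, one_mul, inv_mul_cancel₀ hi0, sub_self, mul_zero]
      · intro i _ hi
        rw [Pi.single_eq_of_ne hi, zero_mul]
      · intro h
        exact absurd (Finset.mem_univ _) h
    refine ⟨_, hmem1 y hyx, fun s => ?_⟩
    obtain ⟨z, hz⟩ : ∃ z : L, z = X.v k / X.x i₀ ^ d k := ⟨_, rfl⟩
    have hz0 : z ≠ 0 := by
      rw [hz]
      exact div_ne_zero hv (pow_ne_zero _ hi0)
    have h1 : r1L X.x (DJ X A) A (Pi.single i₀ 1) s = dv (DJ X A s) (A s) X.x i₀ := by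
      rw [r1L_apply, Finset.sum_eq_single i₀]
      · rw [Pi.single_eq_same, one_mul]
      · intro i _ hi
        rw [Pi.single_eq_of_ne hi, zero_mul]
      · intro h
        exact absurd (Finset.mem_univ _) h
    have h2 : DJ X A s z / z = DJ X A s (X.v k) / X.v k - d k * (DJ X A s (X.x i₀) / X.x i₀) := by
      have h3 : X.v k = z * X.x i₀ ^ d k := by
        rw [hz, div_mul_cancel₀ _ (pow_ne_zero _ hi0)]
      rw [h3, Derivation.leibniz, Derivation.leibniz_pow]
      simp only [smul_eq_mul, nsmul_eq_mul]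
      rcases Nat.eq_zero_or_pos (d k) with hd | hd
      · rw [hd]
        simp
      · obtain ⟨m, hm⟩ : ∃ m, d k = m + 1 := ⟨d k - 1, by omega⟩
        rw [hm, Nat.add_sub_cancel]
        field_simp
        ring
    have h3 : r k s - r1L X.x (DJ X A) A y s =
        - (DJ X A s z / z) - d k * (A s).mulVec (fun i => X.x i / X.x i₀) i₀ := by
      have h4 : (A s).mulVec X.x i₀ = X.x i₀ * (A s).mulVec (fun i => X.x i / X.x i₀) i₀ := by
        have h5 : X.x = X.x i₀ • (fun i => X.x i / X.x i₀) := by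
          funext i
          rw [Pi.smul_apply, smul_eq_mul, mul_div_cancel₀ _ hi0]
        conv_lhs => rw [h5]
        rw [Matrix.mulVec_smul, Pi.smul_apply, smul_eq_mul]
      rw [hr, hy, map_smul, map_sub, map_smul, Pi.smul_apply, Pi.sub_apply, Pi.smul_apply, h1, h2]
      simp only [if_neg hv, smul_eq_mul]
      unfold dv
      rw [h4]
      field_simp
      ring
    have h5 : ∀ y, w.1 y ≤ 1 → w.1 (DJ X A s y) ≤ exp ((δ w : ℕ) : ℤ) := fun y hy => hD s w y hy
    obtain ⟨h6, h7⟩ := log_der_bound w (DJ X A s) h5 hz0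
    have h8 : w.1 (DJ X A s z / z) ≤ exp ((δ w + ε w : ℕ) : ℤ) := by
      rcases hvε w with h9 | h9
      · have h10 : w.1 z = 1 := by
          rw [hz, map_div₀, map_pow, h9 k hv, hiv]
          refine div_self (pow_ne_zero _ ?_)
          exact (Valuation.ne_zero_iff _).2 hi0
        refine (h7 h10).trans ?_
        rw [exp_le_exp]
        push_cast
        omega
      · refine h6.trans ?_
        rw [exp_le_exp]
        push_cast
        omega
    rw [h3]
    refine (Valuation.map_sub _ _ _).trans (max_le ?_ ?_)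
    · rw [Valuation.map_neg]
      exact h8
    · rw [map_mul]
      have h9 : w.1 ((A s).mulVec (fun i => X.x i / X.x i₀) i₀) ≤ exp (δ w : ℤ) := by
        unfold Matrix.mulVec dotProduct
        refine w.1.map_sum_le fun l _ => ?_
        rw [map_mul, map_div₀]
        calc w.1 (A s i₀ l) * (w.1 (X.x l) / w.1 (X.x i₀)) ≤ exp (δ w : ℤ) * 1 :=
              mul_le_mul' (hAδ w s i₀ l) (div_le_one_of_le₀ (him l) zero_le)
          _ = _ := mul_one _
      calc w.1 ((d k : ℕ) : L) * w.1 ((A s).mulVec (fun i => X.x i / X.x i₀) i₀) ≤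
            1 * exp (δ w : ℤ) := mul_le_mul' (val_nat_le w.1 _) h9
        _ ≤ _ := by
          rw [one_mul, exp_le_exp]
          push_cast
          omega
  have hsum : ∑ᶠ w, (δ w : ℤ) = X.Δ + X.R + 2 * ∑ᶠ w, (τ w : ℤ) := by
    rw [hδd]
    exact sum_poles X hτ
  refine ⟨{ x := X.x
            D := DJ X A
            A := A
            M := MJ d X.a
            δ := δ
            hδ := hδ
            hD := hD
            hA := hAδ
            hx := hx0
            U := U
            hU := hfU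
            hr := fun y hy => hUU ⟨y, hy, rfl⟩
            hMD := ?_
            hMA := fun B _ => by rw [hA]; exact MJ_right X.a hP B }, rfl, hsum, hxm, ?_, ?_⟩
  · intro B _
    unfold DJ
    simp only [smul_sub, Finset.sum_sub_distrib, Finset.smul_sum, smul_smul]
    rw [Finset.sum_comm (s := (Finset.univ : Finset (Σ j : Fin p, EX (n + 1) (d j))))]
    simp only [← Finset.sum_smul]
    have h1 : ∀ s' : Σ j : Fin p, EX (n + 1) (d j),
        ∑ s : Σ j : Fin p, EX (n + 1) (d j), MJ d X.a B s * MJ d X.a (A s) s' =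
          MJ d X.a B s' := by
      intro s'
      have h2 := congrArg (MJ d X.a) (MJ_right X.a hP B)
      rw [map_sum] at h2
      have h3 := congrFun h2 s'
      rw [Finset.sum_apply] at h3
      rw [← h3]
      refine Finset.sum_congr rfl fun s _ => ?_
      rw [map_smul, Pi.smul_apply, smul_eq_mul, hA]
    simp only [h1]
    rw [sub_self]
  · have h1 := ht_U1_le h hx0 hδ hD hAδ
    have h2 := ht_sup_rows_le h hδε hloc
    have f1 : (Function.support fun w => (δ w : ℤ)).Finite :=
      hδ.subset fun w hw => by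
        rw [Function.mem_support] at hw ⊢
        exact fun h => hw (by rw [h, Nat.cast_zero])
    have f2 : (Function.support fun w => (ε w : ℤ)).Finite :=
      hε.subset fun w hw => by
        rw [Function.mem_support] at hw ⊢
        exact fun h => hw (by rw [h, Nat.cast_zero])
    have h3 : ∑ᶠ w, ((δ w + ε w : ℕ) : ℤ) = ∑ᶠ w, (δ w : ℤ) + ∑ᶠ w, (ε w : ℤ) := by
      rw [← finsum_add_distrib f1 f2]
      exact finsum_congr fun w => by push_cast; rfl
    rw [h3, ← hU] at h2
    unfold RowU.Δ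
    refine h2.trans ?_
    refine (add_le_add h1 le_rfl).trans (le_of_eq ?_)
    ring
  · intro K hK
    have hK' : K ≤ U1 X.x (DJ X A) A ⊔ Submodule.span L (Set.range r) := by
      rw [← hU]
      exact hK
    have h2 := ht_rows_le h hx0 hδ hD hAδ hδε hloc hK'
    have f1 : (Function.support fun w => (δ w : ℤ)).Finite :=
      hδ.subset fun w hw => by
        rw [Function.mem_support] at hw ⊢
        exact fun h => hw (by rw [h, Nat.cast_zero])
    have f2 : (Function.support fun w => (ε w : ℤ)).Finite :=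
      hε.subset fun w hw => by
        rw [Function.mem_support] at hw ⊢
        exact fun h => hw (by rw [h, Nat.cast_zero])
    have h3 : ∑ᶠ w, ((δ w + ε w : ℕ) : ℤ) = ∑ᶠ w, (δ w : ℤ) + ∑ᶠ w, (ε w : ℤ) := by
      rw [← finsum_add_distrib f1 f2]
      exact finsum_congr fun w => by push_cast; rfl
    rw [h3, ← hU] at h2
    unfold RowU.Δ
    refine h2.trans (le_of_eq ?_)
    ring

end

end Pool.Agent.Lib.MP_44a246_ntSQ
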