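import Mathlib
import Pool.Agent.Lib.MP_44a246_ntSH.CW10
import Pool.Agent.Lib.MP_44a246_ntSP.EX01
import Pool.Agent.Lib.MP_44a246_ntSP.TP03
import Pool.Agent.Lib.MP_44a246_ntSP.FIN02
import Pool.Agent.Lib.MP_44a246_ntSQ.SQ11

/-!
# Sharp pairs with linear forms: the final theorem for large dimension, and all but finitely many
types
-/

namespace Pool.Agent.Lib.MP_44a246_ntSQ

open Pool.Agent.Lib.MP_44a246_nt
open Pool.Agent.Lib.MP_44a246_ntL
open Pool.Agent.Lib.MP_44a246_ntS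
open Pool.Agent.Lib.MP_44a246_ntG
open Pool.Agent.Lib.MP_44a246_ntK
open Pool.Agent.Lib.MP_44a246_ntU
open Pool.Agent.Lib.MP_44a246_ntI
open Pool.Agent.Lib.MP_44a246_ntSH
open Pool.Agent.Lib.MP_44a246_ntSP
open Pool.Agent.Lib.MP_e52354_nt
open MvPolynomial Module

universe u v w

private theorem num_low {n p q : ℕ} (hp : 1 ≤ p) (hq5 : 5 * p ≤ q) (hn4 : 1000 * (p + 11) ≤ n) :
    11 * (p + 11) * (2 * (n / (400 * q))) + 351 * (p + 11) + 16 + p < n := by
  have h1 : 400 * q * (n / (400 * q)) ≤ n := Nat.mul_div_le n (400 * q)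
  have h3 : 11 * (p + 11) * (2 * (n / (400 * q))) * 7 ≤ 400 * q * (n / (400 * q)) := by
    have h4 : 11 * (p + 11) * (2 * (n / (400 * q))) * 7 =
        154 * (p + 11) * (n / (400 * q)) := by ring
    rw [h4]
    refine Nat.mul_le_mul_right _ ?_
    omega
  obtain ⟨P, hP⟩ : ∃ P, P = p + 11 := ⟨_, rfl⟩
  rw [← hP] at h3 hn4 ⊢
  obtain ⟨u, hu⟩ : ∃ u, u = 11 * P * (2 * (n / (400 * q))) := ⟨_, rfl⟩
  rw [← hu] at h3 ⊢
  have h5 : u * 7 ≤ n := h3.trans h1
  have h6 : 351 * P + 16 + p ≤ 353 * P := by omega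
  have h7 : 1 ≤ P := by omega
  omega

/-- **The final theorem** for subfields of the algebraic closure, with a given set of places. -/
theorem pairs_closureQ (p : ℕ) : ∃ n₀ : ℕ, ∀ (n : ℕ) (d : Fin p → ℕ), n₀ ≤ n → (∀ j, 1 ≤ d j) →
    n + 2 ≤ ∑ j, d j →
    ∀ (κ : Type u) (K : Type v) [Field κ] [IsAlgClosed κ] [CharZero κ] [Field K] [CharZero K]
      [Algebra κ K] (_ : Cardinal.aleph0 ≤ Algebra.trdeg ℚ κ) (_ : IsFF κ K)
      (a : Fin p → (Fin (n + 1) →₀ ℕ) → K)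
      (_ : AlgebraicIndependent ℚ (fun s : {s // s ∈ jexpo n d} => a s.1.1 s.1.2))
      (A : Finset (Fin p)),
    ∃ (C : ℕ) (G : MvPolynomial (Fin (n + 1)) K), (∃ e, G.IsHomogeneous e) ∧
      (∃ z : Fin (n + 1) → AlgebraicClosure K, z ≠ 0 ∧
        (∀ j ∈ A, Fval (d j) (fun I => algebraMap K (AlgebraicClosure K) (a j I)) z = 0) ∧
        aeval z G ≠ 0) ∧
      ∀ (L : IntermediateField K (AlgebraicClosure K)) [FiniteDimensional K L]
        (x : Fin (n + 1) → L), x ≠ 0 → ∀ S : Finset (Place κ L),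
        (∀ j, Fval (d j) (fun I => algebraMap K L (a j I)) x = 0 ↔ j ∈ A) →
        (∀ w ∉ S, ∀ j ∉ A, w.1 (Fval (d j) (fun I => algebraMap K L (a j I)) x) =
          vmax w.1 x ^ d j) →
        height κ x ≤ C * ((finrank K L : ℤ) + ramDeg κ L K + S.card) ∨ aeval x G = 0 := by
  rcases Nat.eq_zero_or_pos p with hp | hp
  · subst hp
    refine ⟨0, fun n d _ _ hd => ?_⟩
    rw [Finset.univ_eq_empty, Finset.sum_empty] at hd
    omega
  obtain ⟨q, hq⟩ : ∃ q : ℕ, q = p * (4 * p + 1) := ⟨_, rfl⟩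
  have hq1 : 1 ≤ q := by
    rw [hq]
    exact Nat.mul_pos hp (by omega)
  have hq5 : 5 * p ≤ q := by
    rw [hq]
    have : 5 ≤ 4 * p + 1 := by omega
    calc 5 * p = p * 5 := mul_comm _ _
      _ ≤ _ := Nat.mul_le_mul_left _ this
  obtain ⟨n₁, hmain⟩ := levelQ.{u, v, v} p q hp hq
  obtain ⟨i, hi⟩ := exists_pow_le (2 * 1664 * (8000 * q))
  refine ⟨max (max n₁ (8000 * q)) (max (28 * (p + 11) * 2 ^ i + 17 + p) (1000 * (p + 11))),
    fun n d hn hd1 hd κ K _ _ _ _ _ _ htr hK a ha A => ?_⟩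
  have hn1 : n₁ ≤ n := le_trans (le_trans (le_max_left _ _) (le_max_left _ _)) hn
  have hn2 : 8000 * q ≤ n := le_trans (le_trans (le_max_right _ _) (le_max_left _ _)) hn
  have hn3 : 28 * (p + 11) * 2 ^ i + 17 + p ≤ n :=
    le_trans (le_trans (le_max_left _ _) (le_max_right _ _)) hn
  have hn4 : 1000 * (p + 11) ≤ n := le_trans (le_trans (le_max_right _ _) (le_max_right _ _)) hn
  obtain ⟨C, hC⟩ := hmain n d hn1 hd1 hd κ K hK htr a ha
  have hN : 2 ^ i * (2 * (1664 * n)) ≤ 3 ^ i * (n / (4000 * q)) := by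
    have h1 : n ≤ 8000 * q * (n / (4000 * q)) := by
      have h2 := Nat.div_add_mod n (4000 * q)
      have h3 := Nat.mod_lt n (show 0 < 4000 * q by omega)
      have h4 : 1 ≤ n / (4000 * q) := by
        rw [Nat.le_div_iff_mul_le (by omega)]
        omega
      have h5 : 8000 * q * (n / (4000 * q)) =
          4000 * q * (n / (4000 * q)) + 4000 * q * (n / (4000 * q)) := by ring
      have h6 : 4000 * q * 1 ≤ 4000 * q * (n / (4000 * q)) := Nat.mul_le_mul_left _ h4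
      omega
    calc 2 ^ i * (2 * (1664 * n)) ≤ 2 ^ i * (2 * (1664 * (8000 * q * (n / (4000 * q))))) := by
          gcongr
      _ = 2 ^ i * (2 * 1664 * (8000 * q)) * (n / (4000 * q)) := by ring
      _ ≤ 3 ^ i * (n / (4000 * q)) := Nat.mul_le_mul_right _ hi
  have hlow : 11 * (p + 11) * (2 * (n / (400 * q))) + 351 * (p + 11) + 16 + p < n :=
    num_low hp hq5 hn4
  have hAp : A.card ≤ p := by
    have h1 := Finset.card_le_univ A
    rwa [Fintype.card_fin] at h1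
  obtain ⟨C', G, hG1, hG2, hG3⟩ := exc_pairs hK hd1 hd ha A (by omega) ⟨hN, by omega⟩ hlow C
  refine ⟨max C C', G, hG1, hG2, fun L _ x hx S hS1 hS2 => ?_⟩
  have hT : (0 : ℤ) ≤ (finrank K L : ℤ) + ramDeg κ L K + S.card := by positivity
  have hmono : ∀ C'' : ℕ, C'' ≤ max C C' → ∀ t : ℤ, 
      t ≤ C'' * ((finrank K L : ℤ) + ramDeg κ L K + S.card) →
      t ≤ ((max C C' : ℕ) : ℤ) * ((finrank K L : ℤ) + ramDeg κ L K + S.card) := by
    intro C'' h t ht
    refine ht.trans (mul_le_mul_of_nonneg_right ?_ hT)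
    exact_mod_cast h
  rcases hC L x hx S (fun w hw j hj => hS2 w hw j fun hjA => hj ((hS1 j).2 hjA)) with h | h
  · exact Or.inl (hmono C (le_max_left _ _) _ h)
  · rcases hG3 L x S hS1 hS2 h with h | h
    · exact Or.inl (hmono C' (le_max_right _ _) _ h)
    · exact Or.inr h

/-- **The height theorem for pairs.** -/
theorem pairs_mainQ (p : ℕ) : ∃ n₀ : ℕ, ∀ (n : ℕ) (d : Fin p → ℕ), n₀ ≤ n → (∀ j, 1 ≤ d j) →
    n + 2 ≤ ∑ j, d j →
    ∀ (κ : Type u) (K : Type v) [Field κ] [IsAlgClosed κ] [CharZero κ] [Field K] [CharZero K]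
      [Algebra κ K] (_ : Cardinal.aleph0 ≤ Algebra.trdeg ℚ κ) (t : K) (_ : Transcendental κ t)
      (_ : FiniteDimensional (IntermediateField.adjoin κ {t}) K)
      (F : Fin p → MvPolynomial (Fin (n + 1)) K) (_ : ∀ j, (F j).IsHomogeneous (d j))
      (_ : AlgebraicIndependent ℚ
        (fun I : {I : Fin p × (Fin (n + 1) →₀ ℕ) // I.2.degree = d I.1} =>
          (F I.1.1).coeff I.1.2))
      (S : Set (Place κ K)) (_ : S.Finite) (A : Finset (Fin p)),
    ∃ G : MvPolynomial (Fin (n + 1)) K, (∃ e, G.IsHomogeneous e) ∧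
      (∃ z : Fin (n + 1) → AlgebraicClosure K, z ≠ 0 ∧ (∀ j ∈ A, aeval z (F j) = 0) ∧
        aeval z G ≠ 0) ∧
      ∃ C : ℕ, ∀ (L : Type w) [Field L] [Algebra K L] [FiniteDimensional K L] [Algebra κ L]
        [IsScalarTower κ K L] (x : Fin (n + 1) → L), x ≠ 0 →
        (∀ j, aeval x (F j) = 0 ↔ j ∈ A) →
        height κ x ≤ C * ((finrank K L : ℤ) + ramDeg κ L K + truncCount κ F d S x) ∨
          aeval x G = 0 := by
  obtain ⟨n₀, hmain⟩ := pairs_closureQ.{u, v} p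
  refine ⟨n₀, fun n d hn hd1 hd κ K _ _ _ _ _ _ htr t ht hfin F hF hgen S hS A => ?_⟩
  have ha := algInd_jexpo hgen
  have hK : IsFF κ K := ⟨t, ht, hfin⟩
  obtain ⟨C, G, hG1, ⟨z, hz0, hzA, hzG⟩, hG3⟩ := hmain n d hn hd1 hd κ K htr hK
    (fun j I => (F j).coeff I) ha A
  obtain ⟨C', hC'⟩ := reduce_to_closure.{u, v, w} hK d (fun j I => (F j).coeff I) hS
    (A : Set (Fin p)) G ⟨C, fun L _ x hx S' h1 h2 => hG3 L x hx S' h1 h2⟩
  refine ⟨G, hG1, ⟨z, hz0, fun j hj => ?_, hzG⟩, C', ?_⟩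
  · rw [aeval_eq_Fval (F j) (hF j)]
    exact hzA j hj
  intro L _ _ _ _ _ x hx hA
  rw [truncCount_eq_meetSet d F hF S x]
  refine hC' L x hx fun j => ?_
  rw [← aeval_eq_Fval (F j) (hF j), hA j]
  rfl

/-- **The height theorem for pairs**, for all but finitely many types. -/
theorem pairs_finalQ (p : ℕ) : ∃ E : Finset (ℕ × (Fin p → ℕ)),
    (∀ q ∈ E, ∑ j, q.2 j ≤ 2 * q.1 + 1) ∧
    ∀ (n : ℕ) (d : Fin p → ℕ), (∀ j, 1 ≤ d j) → n + 2 ≤ ∑ j, d j → (n, d) ∉ E →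
    ∀ (κ : Type u) (K : Type v) [Field κ] [IsAlgClosed κ] [CharZero κ] [Field K] [CharZero K]
      [Algebra κ K] (_ : Cardinal.aleph0 ≤ Algebra.trdeg ℚ κ) (t : K) (_ : Transcendental κ t)
      (_ : FiniteDimensional (IntermediateField.adjoin κ {t}) K)
      (F : Fin p → MvPolynomial (Fin (n + 1)) K) (_ : ∀ j, (F j).IsHomogeneous (d j))
      (_ : AlgebraicIndependent ℚ
        (fun I : {I : Fin p × (Fin (n + 1) →₀ ℕ) // I.2.degree = d I.1} =>
          (F I.1.1).coeff I.1.2))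
      (S : Set (Place κ K)) (_ : S.Finite) (A : Finset (Fin p)) (_ : A.card ≤ n),
    ∃ G : MvPolynomial (Fin (n + 1)) K, (∃ e, G.IsHomogeneous e) ∧
      (∃ z : Fin (n + 1) → AlgebraicClosure K, z ≠ 0 ∧ (∀ j ∈ A, aeval z (F j) = 0) ∧
        aeval z G ≠ 0) ∧
      ∃ C : ℕ, ∀ (L : Type w) [Field L] [Algebra K L] [FiniteDimensional K L] [Algebra κ L]
        [IsScalarTower κ K L] (x : Fin (n + 1) → L), x ≠ 0 →
        (∀ j, aeval x (F j) = 0 ↔ j ∈ A) →
        height κ x ≤ C * ((finrank K L : ℤ) + ramDeg κ L K + truncCount κ F d S x) ∨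
          aeval x G = 0 := by
  classical
  obtain ⟨n₀, hmain⟩ := pairs_mainQ.{u, v, w} p
  refine ⟨((Finset.range n₀) ×ˢ (Fintype.piFinset fun _ : Fin p => Finset.range (2 * n₀ + 2))).filter
    fun q => ∑ j, q.2 j ≤ 2 * q.1 + 1, fun q hq => (Finset.mem_filter.1 hq).2,
    fun n d hd1 hd hE κ K _ _ _ _ _ _ htr t ht hfin F hF hgen S hS A hA => ?_⟩
  rcases le_or_gt n₀ n with h0 | h0
  · exact hmain n d h0 hd1 hd κ K htr t ht hfin F hF hgen S hS A
  rcases le_or_gt (∑ j, d j) (2 * n + 1) with h1 | h1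
  · refine absurd ?_ hE
    rw [Finset.mem_filter, Finset.mem_product, Finset.mem_range, Fintype.mem_piFinset]
    refine ⟨⟨h0, fun j => ?_⟩, h1⟩
    rw [Finset.mem_range]
    have h2 : d j ≤ ∑ j, d j := Finset.single_le_sum (f := d) (fun _ _ => Nat.zero_le _)
      (Finset.mem_univ j)
    show d j < 2 * n₀ + 2
    omega
  · exact pairs_large.{u, v, w} ht hfin hd1 (by omega) F hF
      hgen S hS A hA

end Pool.Agent.Lib.MP_44a246_ntSQ
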